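import Mathlib
import Pool.Agent.Helper22.GC.Large
import Pool.Agent.Helper72.VC.Test

/-!
# TM-T1: the third derivative test for the block sums of `t √k`
-/

open MeasureTheory Set Filter
open scoped Real Topology

set_option autoImplicit false

namespace Pool.Agent.Helper53.TM

open Pool.Agent.Helper22.GC (EK EK_trivial)

/-- the tower of derivatives of `t √(K + x)` -/
noncomputable def Fr (K t : ℝ) : ℕ → ℝ → ℝ
  | 0, x => t * (K + x) ^ (1 / 2 : ℝ)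
  | 1, x => t * (1 / 2 * (K + x) ^ (-(1 / 2) : ℝ))
  | 2, x => t * (-(1 / 4) * (K + x) ^ (-(3 / 2) : ℝ))
  | 3, x => t * (3 / 8 * (K + x) ^ (-(5 / 2) : ℝ))
  | _, _ => 0

lemma rpow_der (K p x : ℝ) (h : 0 < K + x) : HasDerivAt (fun y => (K + y) ^ p) (p * (K + x) ^ (p - 1)) x := by
  have h1 : HasDerivAt (fun y => K + y) 1 x := by simpa using (hasDerivAt_id x).const_add K
  have h2 := h1.rpow_const (p := p) (Or.inl h.ne')
  convert h2 using 1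
  ring

lemma tower {K t : ℝ} (hK : 0 < K) (ht : 0 < t) :
    Pool.Agent.Helper72.VC.Tow 3 (Fr K t) K (3 / 8 * t * (2 * K) ^ (-(5 / 2) : ℝ)) 8 := by
  refine ⟨?_, ?_, ?_⟩
  · intro j hj x hx
    have hx0 : 0 < K + x := by linarith [hx.1]
    interval_cases j
    · have h := (rpow_der K (1 / 2) x hx0).const_mul t
      have e : (1 / 2 : ℝ) - 1 = -(1 / 2) := by norm_num
      rw [e] at h
      exact h
    · have h := (((rpow_der K (-(1 / 2)) x hx0).const_mul (1 / 2)).const_mul t)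
      have e : -(1 / 2 : ℝ) - 1 = -(3 / 2) := by norm_num
      rw [e] at h
      have e2 : Fr K t (1 + 1) x = t * (1 / 2 * (-(1 / 2) * (K + x) ^ (-(3 / 2) : ℝ))) := by
        show t * (-(1 / 4) * (K + x) ^ (-(3 / 2) : ℝ)) = _
        ring
      rw [e2]
      exact h
    · have h := (((rpow_der K (-(3 / 2)) x hx0).const_mul (-(1 / 4))).const_mul t)
      have e : -(3 / 2 : ℝ) - 1 = -(5 / 2) := by norm_num
      rw [e] at h
      have e2 : Fr K t (2 + 1) x = t * (-(1 / 4) * (-(3 / 2) * (K + x) ^ (-(5 / 2) : ℝ))) := by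
        show t * (3 / 8 * (K + x) ^ (-(5 / 2) : ℝ)) = _
        ring
      rw [e2]
      exact h
  · intro x hx
    have hx0 : 0 < K + x := by linarith [hx.1]
    have h1 : (2 * K) ^ (-(5 / 2) : ℝ) ≤ (K + x) ^ (-(5 / 2) : ℝ) :=
      Real.rpow_le_rpow_of_nonpos hx0 (by linarith [hx.2]) (by norm_num)
    have e : Fr K t 3 x = 3 / 8 * t * (K + x) ^ (-(5 / 2) : ℝ) := by
      show t * (3 / 8 * (K + x) ^ (-(5 / 2) : ℝ)) = _
      ring
    rw [e]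
    exact mul_le_mul_of_nonneg_left h1 (by positivity)
  · intro x hx
    have hx0 : 0 < K + x := by linarith [hx.1]
    have h1 : (K + x) ^ (-(5 / 2) : ℝ) ≤ K ^ (-(5 / 2) : ℝ) :=
      Real.rpow_le_rpow_of_nonpos hK (by linarith [hx.1]) (by norm_num)
    have h2 : K ^ (-(5 / 2) : ℝ) ≤ 8 * (2 * K) ^ (-(5 / 2) : ℝ) := by
      rw [Real.mul_rpow (by norm_num) hK.le, ← mul_assoc]
      have h3 : (1 : ℝ) ≤ 8 * (2 : ℝ) ^ (-(5 / 2) : ℝ) := by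
        have h4 : (2 : ℝ) ^ (-(3 : ℝ)) ≤ (2 : ℝ) ^ (-(5 / 2) : ℝ) :=
          Real.rpow_le_rpow_of_exponent_le (by norm_num) (by norm_num)
        have h5 : (2 : ℝ) ^ (-(3 : ℝ)) = 1 / 8 := by
          rw [Real.rpow_neg (by norm_num)]
          norm_num
        rw [h5] at h4
        linarith
      exact le_mul_of_one_le_left (by positivity) h3
    have e : Fr K t 3 x = 3 / 8 * t * (K + x) ^ (-(5 / 2) : ℝ) := by
      show t * (3 / 8 * (K + x) ^ (-(5 / 2) : ℝ)) = _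
      ring
    rw [e]
    calc 3 / 8 * t * (K + x) ^ (-(5 / 2) : ℝ) ≤ 3 / 8 * t * (8 * (2 * K) ^ (-(5 / 2) : ℝ)) :=
          mul_le_mul_of_nonneg_left (h1.trans h2) (by positivity)
      _ = _ := by ring

/-- **the third derivative test** for the block sum -/
theorem EK_third : ∃ C : ℝ, 1 ≤ C ∧ ∀ (K : ℕ) (t : ℝ), 1 ≤ K → 0 < t →
    ‖EK K t‖ ≤ C * ((K : ℝ) ^ (7 / 12 : ℝ) * t ^ (1 / 6 : ℝ) + (K : ℝ) ^ (11 / 12 : ℝ) * t ^ (-(1 / 6) : ℝ)) := by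
  obtain ⟨C, hC, hC2⟩ := Pool.Agent.Helper72.VC.vdc_test 8 (by norm_num) 1
  refine ⟨4 * C + 1, by linarith, fun K t hK ht => ?_⟩
  have hK0 : (0 : ℝ) < K := by exact_mod_cast hK
  have h1 := hC2 (Fr K t) K (3 / 8 * t * (2 * (K : ℝ)) ^ (-(5 / 2) : ℝ)) (by positivity) (tower hK0 ht)
  have e1 : EK K t = ∑ n ∈ Finset.range K, Pool.Agent.Helper22.AE.ee (Fr K t 0 n) := by
    unfold EK
    rw [Finset.sum_Ico_eq_sum_range]
    have e2 : 2 * K - K = K := by omega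
    rw [e2]
    refine Finset.sum_congr rfl fun n _ => ?_
    rw [Pool.Agent.Helper72.VC.ee_eq]
    congr 1
    unfold Fr
    rw [Real.sqrt_eq_rpow]
    push_cast
    rfl
  rw [← e1] at h1
  refine h1.trans ?_
  norm_num
  obtain ⟨l, hl⟩ : ∃ l : ℝ, l = 3 / 8 * t * (2 * (K : ℝ)) ^ (-(5 / 2) : ℝ) := ⟨_, rfl⟩
  rw [← hl]
  obtain ⟨m, hm⟩ : ∃ m : ℝ, m = t * (K : ℝ) ^ (-(5 / 2) : ℝ) := ⟨_, rfl⟩
  have hm0 : 0 < m := by rw [hm]; positivity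
  have e2 : (2 * (K : ℝ)) ^ (-(5 / 2) : ℝ) = (2 : ℝ) ^ (-(5 / 2) : ℝ) * (K : ℝ) ^ (-(5 / 2) : ℝ) :=
    Real.mul_rpow (by norm_num) hK0.le
  have e3 : l = 3 / 8 * (2 : ℝ) ^ (-(5 / 2) : ℝ) * m := by
    rw [hl, hm, e2]
    ring
  have h3 : (2 : ℝ) ^ (-(5 / 2) : ℝ) ≤ 1 := Real.rpow_le_one_of_one_le_of_nonpos (by norm_num) (by norm_num)
  have h4 : 1 / 8 ≤ (2 : ℝ) ^ (-(5 / 2) : ℝ) := by
    have h4 : (2 : ℝ) ^ (-(3 : ℝ)) ≤ (2 : ℝ) ^ (-(5 / 2) : ℝ) :=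
      Real.rpow_le_rpow_of_exponent_le (by norm_num) (by norm_num)
    have h5 : (2 : ℝ) ^ (-(3 : ℝ)) = 1 / 8 := by
      rw [Real.rpow_neg (by norm_num)]
      norm_num
    rwa [h5] at h4
  have hlm : l ≤ m := by
    rw [e3]
    refine mul_le_of_le_one_left hm0.le ?_
    linarith
  have hml : m / 4 ^ 6 ≤ l := by
    rw [e3, div_eq_inv_mul]
    refine mul_le_mul_of_nonneg_right ?_ hm0.le
    norm_num
    linarith
  have hl0 : 0 < l := lt_of_lt_of_le (by positivity) hml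
  have h5 : l ^ (1 / 6 : ℝ) ≤ t ^ (1 / 6 : ℝ) * (K : ℝ) ^ (-(5 / 12) : ℝ) := by
    refine (Real.rpow_le_rpow hl0.le hlm (by norm_num)).trans (le_of_eq ?_)
    rw [hm, Real.mul_rpow ht.le (by positivity), ← Real.rpow_mul hK0.le]
    norm_num
  have h6 : l ^ (-(1 / 6) : ℝ) ≤ 4 * (t ^ (-(1 / 6) : ℝ) * (K : ℝ) ^ (5 / 12 : ℝ)) := by
    refine (Real.rpow_le_rpow_of_nonpos (by positivity) hml (by norm_num)).trans (le_of_eq ?_)
    rw [div_eq_mul_inv, Real.mul_rpow hm0.le (by positivity), hm, Real.mul_rpow ht.le (by positivity),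
      ← Real.rpow_mul hK0.le, Real.inv_rpow (by positivity), ← Real.rpow_natCast (4 : ℝ) 6,
      ← Real.rpow_mul (by norm_num), ← Real.rpow_neg (by norm_num)]
    norm_num
    ring
  have h7 : (K : ℝ) * l ^ (1 / 6 : ℝ) ≤ (K : ℝ) ^ (7 / 12 : ℝ) * t ^ (1 / 6 : ℝ) := by
    refine (mul_le_mul_of_nonneg_left h5 hK0.le).trans (le_of_eq ?_)
    have e4 : (K : ℝ) ^ (7 / 12 : ℝ) = K * (K : ℝ) ^ (-(5 / 12) : ℝ) := by
      rw [show (7 / 12 : ℝ) = 1 + -(5 / 12) by norm_num, Real.rpow_add hK0, Real.rpow_one]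
    rw [e4]
    ring
  have h8 : (K : ℝ) ^ (1 / 2 : ℝ) * l ^ (-(1 / 6) : ℝ) ≤ 4 * ((K : ℝ) ^ (11 / 12 : ℝ) * t ^ (-(1 / 6) : ℝ)) := by
    refine (mul_le_mul_of_nonneg_left h6 (by positivity)).trans (le_of_eq ?_)
    have e4 : (K : ℝ) ^ (11 / 12 : ℝ) = (K : ℝ) ^ (1 / 2 : ℝ) * (K : ℝ) ^ (5 / 12 : ℝ) := by
      rw [← Real.rpow_add hK0]
      norm_num
    rw [e4]
    ring
  obtain ⟨P, hP⟩ : ∃ P : ℝ, P = (K : ℝ) ^ (7 / 12 : ℝ) * t ^ (1 / 6 : ℝ) := ⟨_, rfl⟩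
  obtain ⟨Q, hQ⟩ : ∃ Q : ℝ, Q = (K : ℝ) ^ (11 / 12 : ℝ) * t ^ (-(1 / 6) : ℝ) := ⟨_, rfl⟩
  have hP0 : 0 ≤ P := by rw [hP]; positivity
  have hQ0 : 0 ≤ Q := by rw [hQ]; positivity
  rw [← hP] at h7 ⊢
  rw [← hQ] at h8 ⊢
  calc C * (K * l ^ (1 / 6 : ℝ) + (K : ℝ) ^ (1 / 2 : ℝ) * l ^ (-(1 / 6) : ℝ)) ≤ C * (P + 4 * Q) :=
        mul_le_mul_of_nonneg_left (add_le_add h7 h8) hC
    _ ≤ (4 * C + 1) * (P + Q) := by
        have h9 : 0 ≤ C * P := mul_nonneg hC hP0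
        have h10 : 0 ≤ C * Q := mul_nonneg hC hQ0
        linarith

end Pool.Agent.Helper53.TM
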