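import Mathlib
import Pool.Agent.Helper53.TM.T1
import Pool.Agent.Helper22.GC.Large2

/-!
# TM-T2: large values of a block over cells of length `1/√K`
-/

open MeasureTheory Set Filter
open scoped Real ComplexConjugate Topology

set_option autoImplicit false

namespace Pool.Agent.Helper53.TM

open Pool.Agent.Helper22.GC (EK EK_trivial EK_neg EK_small EK_large ee ee_add norm_ee conj_ee sum_inj_le seg_count)

/-- Sum of the block sums over differences of points in different cells of length `1/√K`. -/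
lemma sum_EK_cell {S : Finset ℕ} {x : ℕ → ℝ} {T Φ : ℝ} {K : ℕ} (hK : 1 ≤ K) (hΦ : 0 ≤ Φ)
    (hsep : ∀ m ∈ S, ∀ n ∈ S, |(m : ℝ) - n| - 1 ≤ √K * |x m - x n|)
    (hdiam : ∀ m ∈ S, ∀ n ∈ S, |x m - x n| ≤ T)
    (hfar : ∀ t : ℝ, √K ≤ t → t ≤ T → ‖EK K t‖ ≤ Φ) {m : ℕ} (hm : m ∈ S) :
    ∑ n ∈ S, ‖EK K (x m - x n)‖ ≤ 15 * K * (1 + Real.log (2 * K)) + S.card * Φ := by
  classical
  have hK0 : (1 : ℝ) ≤ K := by exact_mod_cast hK
  have hsK : 1 ≤ √(K : ℝ) := by rw [Real.one_le_sqrt]; exact hK0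
  have hsK2 : √(K : ℝ) * √K = K := Real.mul_self_sqrt (by linarith)
  set Dn : ℕ := 2 * K with hDn
  set f : ℕ → ℝ := fun i => 6 * K * (1 / ((i + 1 : ℕ) : ℝ)) with hf
  have hf0 : ∀ i, 0 ≤ f i := fun i => by positivity
  set A : ℕ → ℝ := fun n => if n = m ∨ n = m + 1 ∨ n + 1 = m then (K : ℝ) else 0 with hA
  set B1 : ℕ → ℝ := fun n => if n < m ∧ m - n ≤ Dn then f (m - n - 1) else 0 with hB1
  set B2 : ℕ → ℝ := fun n => if m < n ∧ n - m ≤ Dn then f (n - m - 1) else 0 with hB2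
  have hA0 : ∀ n, 0 ≤ A n := fun n => by simp only [hA]; split_ifs <;> linarith
  have hB10 : ∀ n, 0 ≤ B1 n := fun n => by simp only [hB1]; split_ifs <;> [exact hf0 _; exact le_rfl]
  have hB20 : ∀ n, 0 ≤ B2 n := fun n => by simp only [hB2]; split_ifs <;> [exact hf0 _; exact le_rfl]
  -- the common computation
  have comp : ∀ (d : ℕ) (t : ℝ), 2 ≤ d → (d : ℝ) - 1 ≤ √K * t → t ≤ √K →
      0 < t ∧ d ≤ Dn ∧ 3 * √(K : ℝ) / t ≤ 6 * K * (1 / (d : ℝ)) := by
    intro d t hd h1 h2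
    have hdr : (2 : ℝ) ≤ d := by exact_mod_cast hd
    have h3 : (d : ℝ) / 2 ≤ √K * t := by linarith
    have ht : 0 < t := by
      by_contra hcon
      push Not at hcon
      have : √(K : ℝ) * t ≤ 0 := mul_nonpos_of_nonneg_of_nonpos (by linarith) hcon
      linarith
    refine ⟨ht, ?_, ?_⟩
    · have h4 : √(K : ℝ) * t ≤ √K * √K := mul_le_mul_of_nonneg_left h2 (by linarith)
      rw [hsK2] at h4
      have h5 : (d : ℝ) ≤ ((2 * K : ℕ) : ℝ) := by push_cast; linarith
      exact_mod_cast h5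
    · rw [mul_one_div, div_le_div_iff₀ ht (by linarith)]
      have h4 : √(K : ℝ) * ((d : ℝ) / 2) ≤ √K * (√K * t) := mul_le_mul_of_nonneg_left h3 (by linarith)
      have h5 : √(K : ℝ) * (√K * t) = K * t := by rw [← mul_assoc, hsK2]
      rw [h5] at h4
      linarith
  have key : ∀ n ∈ S, ‖EK K (x m - x n)‖ ≤ A n + (B1 n + B2 n) + Φ := by
    intro n hn
    by_cases hnear : n = m ∨ n = m + 1 ∨ n + 1 = m
    · have h1 := EK_trivial K (x m - x n)
      have : A n = K := by simp only [hA]; rw [if_pos hnear]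
      rw [this]
      linarith [hB10 n, hB20 n]
    · push Not at hnear
      have habs : ‖EK K (x m - x n)‖ = ‖EK K |x m - x n|‖ := by
        rcases abs_cases (x m - x n) with ⟨h, _⟩ | ⟨h, _⟩
        · rw [h]
        · rw [h, EK_neg]
      rw [habs]
      have hs := hsep m hm n hn
      have hd := hdiam m hm n hn
      obtain ⟨t, ht⟩ : ∃ t : ℝ, t = |x m - x n| := ⟨_, rfl⟩
      rw [← ht] at hs hd ⊢
      rcases le_or_gt t (√K) with htK | htK
      swap
      · have h1 := hfar t htK.le hd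
        linarith [hA0 n, hB10 n, hB20 n]
      rcases Nat.lt_or_ge n m with hlt | hge
      · obtain ⟨d, hd2⟩ : ∃ d, m = n + d := ⟨m - n, by omega⟩
        have hd3 : 2 ≤ d := by omega
        have hdr : (2 : ℝ) ≤ d := by exact_mod_cast hd3
        have habs2 : |(m : ℝ) - n| = d := by
          rw [hd2]; push_cast; rw [add_sub_cancel_left]; exact abs_of_nonneg (by linarith)
        rw [habs2] at hs
        obtain ⟨ht0, hdD, h2⟩ := comp d t hd3 hs htK
        have h1 := EK_small hK ht0 htK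
        have hcond : n < m ∧ m - n ≤ Dn := ⟨hlt, by omega⟩
        have hB : B1 n = 6 * K * (1 / (d : ℝ)) := by
          simp only [hB1]
          rw [if_pos hcond]
          simp only [hf]
          have : m - n - 1 + 1 = d := by omega
          rw [this]
        linarith [hA0 n, hB20 n]
      · obtain ⟨d, hd2⟩ : ∃ d, n = m + d := ⟨n - m, by omega⟩
        have hd3 : 2 ≤ d := by omega
        have hdr : (2 : ℝ) ≤ d := by exact_mod_cast hd3
        have habs2 : |(m : ℝ) - n| = d := by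
          rw [hd2]; push_cast
          have : (m : ℝ) - (m + d) = -(d : ℝ) := by ring
          rw [this, abs_neg]; exact abs_of_nonneg (by linarith)
        rw [habs2] at hs
        obtain ⟨ht0, hdD, h2⟩ := comp d t hd3 hs htK
        have h1 := EK_small hK ht0 htK
        have hcond : m < n ∧ n - m ≤ Dn := ⟨by omega, by omega⟩
        have hB : B2 n = 6 * K * (1 / (d : ℝ)) := by
          simp only [hB2]
          rw [if_pos hcond]
          simp only [hf]
          have : n - m - 1 + 1 = d := by omega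
          rw [this]
        linarith [hA0 n, hB10 n]
  refine (Finset.sum_le_sum key).trans ?_
  rw [Finset.sum_add_distrib, Finset.sum_add_distrib, Finset.sum_add_distrib, Finset.sum_const,
    nsmul_eq_mul]
  have hharm : ∑ i ∈ Finset.range Dn, f i ≤ 6 * K * (1 + Real.log (2 * K)) := by
    simp only [hf]
    rw [← Finset.mul_sum]
    have h1 := harmonic_le_one_add_log Dn
    have h2 : ((harmonic Dn : ℚ) : ℝ) = ∑ i ∈ Finset.range Dn, (1 : ℝ) / ((i + 1 : ℕ) : ℝ) := by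
      unfold harmonic
      push_cast
      refine Finset.sum_congr rfl fun i _ => ?_
      rw [one_div]
    rw [h2] at h1
    refine mul_le_mul_of_nonneg_left ?_ (by positivity)
    refine h1.trans (le_of_eq ?_)
    rw [hDn]
    push_cast
    rfl
  have hAs : ∑ n ∈ S, A n ≤ 3 * K := by
    simp only [hA]
    rw [← Finset.sum_filter, Finset.sum_const, nsmul_eq_mul]
    have hc : (S.filter (fun n => n = m ∨ n = m + 1 ∨ n + 1 = m)).card ≤ 3 := by
      have hsub : S.filter (fun n => n = m ∨ n = m + 1 ∨ n + 1 = m) ⊆ {m, m + 1, m - 1} := by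
        intro n hn
        rw [Finset.mem_filter] at hn
        simp only [Finset.mem_insert, Finset.mem_singleton]
        omega
      exact (Finset.card_le_card hsub).trans Finset.card_le_three
    have : ((S.filter (fun n => n = m ∨ n = m + 1 ∨ n + 1 = m)).card : ℝ) ≤ 3 := by exact_mod_cast hc
    exact mul_le_mul_of_nonneg_right this (by linarith)
  have hB1s : ∑ n ∈ S, B1 n ≤ 6 * K * (1 + Real.log (2 * K)) := by
    simp only [hB1]
    rw [← Finset.sum_filter]
    refine (sum_inj_le (N := Dn) (φ := fun n => m - n - 1) hf0 ?_ ?_).trans hharm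
    · intro a ha b hb hab
      rw [Finset.mem_coe, Finset.mem_filter] at ha hb
      simp only at hab
      omega
    · intro n hn
      rw [Finset.mem_filter] at hn
      omega
  have hB2s : ∑ n ∈ S, B2 n ≤ 6 * K * (1 + Real.log (2 * K)) := by
    simp only [hB2]
    rw [← Finset.sum_filter]
    refine (sum_inj_le (N := Dn) (φ := fun n => n - m - 1) hf0 ?_ ?_).trans hharm
    · intro a ha b hb hab
      rw [Finset.mem_coe, Finset.mem_filter] at ha hb
      simp only at hab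
      omega
    · intro n hn
      rw [Finset.mem_filter] at hn
      omega
  have hlog : 0 ≤ Real.log (2 * K) := Real.log_nonneg (by linarith)
  have h9 : 0 ≤ (K : ℝ) * Real.log (2 * K) := by positivity
  have e1 : 15 * (K : ℝ) * (1 + Real.log (2 * K)) = 15 * K + 15 * (K * Real.log (2 * K)) := by ring
  have e2 : 6 * (K : ℝ) * (1 + Real.log (2 * K)) = 6 * K + 6 * (K * Real.log (2 * K)) := by ring
  rw [e2] at hB1s hB2s
  rw [e1]
  linarith

/-- Duality: a large value inequality for one block. -/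
lemma block_dual {S : Finset ℕ} {x : ℕ → ℝ} {W ρ Z : ℝ} {K : ℕ} (hZ : 0 ≤ Z)
    (hsum : ∀ m ∈ S, ∑ n ∈ S, ‖EK K (x m - x n)‖ ≤ Z) (c : ℕ → ℂ)
    (hc : ∀ k ∈ Finset.Ico K (2 * K), ‖c k‖ ≤ ρ) (hW : 0 ≤ W)
    (hlarge : ∀ n ∈ S, W ≤ ‖∑ k ∈ Finset.Ico K (2 * K), c k * ee (x n * √k)‖) :
    (S.card : ℝ) * W ^ 2 ≤ K * ρ ^ 2 * Z := by
  classical
  rcases S.eq_empty_or_nonempty with rfl | hne
  · simp
    positivity
  have hN0 : (0 : ℝ) < S.card := by exact_mod_cast Finset.card_pos.mpr hne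
  -- unimodular signs
  set b : ℕ → ℂ := fun n => ∑ k ∈ Finset.Ico K (2 * K), c k * ee (x n * √k) with hb
  set ε : ℕ → ℂ := fun n => if b n = 0 then 0 else conj (b n) / ‖b n‖ with hε
  have hε1 : ∀ n, ‖ε n‖ ≤ 1 := by
    intro n
    simp only [hε]
    split_ifs with h
    · simp
    · rw [norm_div, Complex.norm_conj, Complex.norm_real, norm_norm, div_self (norm_ne_zero_iff.mpr h)]
  have hεb : ∀ n, ε n * b n = ‖b n‖ := by
    intro n
    simp only [hε]
    split_ifs with h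
    · simp [h]
    · have h1 : ((‖b n‖ : ℝ) : ℂ) ≠ 0 := by exact_mod_cast norm_ne_zero_iff.mpr h
      rw [div_mul_eq_mul_div, mul_comm, Complex.mul_conj, Complex.normSq_eq_norm_sq, div_eq_iff h1]
      push_cast
      ring
  have hsum2 : (((∑ n ∈ S, ‖b n‖ : ℝ)) : ℂ) = ∑ k ∈ Finset.Ico K (2 * K), c k *
      ∑ n ∈ S, ε n * ee (x n * √k) := by
    have h1 : (((∑ n ∈ S, ‖b n‖ : ℝ)) : ℂ) = ∑ n ∈ S, ε n * b n := by
      rw [Complex.ofReal_sum]
      exact Finset.sum_congr rfl fun n _ => (hεb n).symm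
    rw [h1]
    simp only [hb, Finset.mul_sum]
    rw [Finset.sum_comm]
    refine Finset.sum_congr rfl fun k _ => Finset.sum_congr rfl fun n _ => ?_
    ring
  set g : ℕ → ℂ := fun k => ∑ n ∈ S, ε n * ee (x n * √k) with hg
  have hdual : ∑ k ∈ Finset.Ico K (2 * K), ‖g k‖ ^ 2 ≤ S.card * Z := by
    have h1 : ((∑ k ∈ Finset.Ico K (2 * K), ‖g k‖ ^ 2 : ℝ) : ℂ)
        = ∑ m ∈ S, ∑ n ∈ S, ε m * conj (ε n) * EK K (x m - x n) := by
      have hsq : ∀ z : ℂ, ((‖z‖ ^ 2 : ℝ) : ℂ) = z * conj z := by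
        intro z
        rw [Complex.mul_conj, Complex.normSq_eq_norm_sq]
      simp only [Complex.ofReal_sum, hsq]
      have h2 : ∀ k : ℕ, g k * conj (g k) = ∑ m ∈ S, ∑ n ∈ S, ε m * conj (ε n) *
          ee ((x m - x n) * √k) := by
        intro k
        simp only [hg]
        rw [map_sum, Finset.sum_mul_sum]
        refine Finset.sum_congr rfl fun m _ => Finset.sum_congr rfl fun n _ => ?_
        rw [map_mul, conj_ee]
        have : ee ((x m - x n) * √(k : ℝ)) = ee (x m * √k) * ee (-(x n * √k)) := by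
          rw [← ee_add]; congr 1; ring
        rw [this]
        ring
      simp only [h2]
      rw [Finset.sum_comm]
      refine Finset.sum_congr rfl fun m _ => ?_
      rw [Finset.sum_comm]
      refine Finset.sum_congr rfl fun n _ => ?_
      rw [EK, Finset.mul_sum]
    have h0 : 0 ≤ ∑ k ∈ Finset.Ico K (2 * K), ‖g k‖ ^ 2 := Finset.sum_nonneg fun _ _ => by positivity
    have h3 : ∑ k ∈ Finset.Ico K (2 * K), ‖g k‖ ^ 2
        = ‖((∑ k ∈ Finset.Ico K (2 * K), ‖g k‖ ^ 2 : ℝ) : ℂ)‖ := by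
      rw [Complex.norm_real, Real.norm_of_nonneg h0]
    rw [h3, h1]
    refine (norm_sum_le _ _).trans ?_
    refine (Finset.sum_le_card_nsmul _ _ Z fun m hm => ?_).trans ?_
    · refine (norm_sum_le _ _).trans ((Finset.sum_le_sum fun n _ => ?_).trans (hsum m hm))
      rw [norm_mul, norm_mul, Complex.norm_conj]
      calc ‖ε m‖ * ‖ε n‖ * ‖EK K (x m - x n)‖ ≤ 1 * 1 * ‖EK K (x m - x n)‖ := by
            gcongr <;> exact hε1 _
        _ = _ := by ring
    · rw [nsmul_eq_mul]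
  have hlow : (S.card : ℝ) * W ≤ ∑ n ∈ S, ‖b n‖ := by
    have := Finset.card_nsmul_le_sum S (fun n => ‖b n‖) W (fun n hn => hlarge n hn)
    rwa [nsmul_eq_mul] at this
  have hup : ∑ n ∈ S, ‖b n‖ ≤ ∑ k ∈ Finset.Ico K (2 * K), ‖c k‖ * ‖g k‖ := by
    have h0 : 0 ≤ ∑ n ∈ S, ‖b n‖ := Finset.sum_nonneg fun _ _ => norm_nonneg _
    have h1 : ∑ n ∈ S, ‖b n‖ = ‖(((∑ n ∈ S, ‖b n‖ : ℝ)) : ℂ)‖ := by
      rw [Complex.norm_real, Real.norm_of_nonneg h0]
    rw [h1, hsum2]
    refine (norm_sum_le _ _).trans (Finset.sum_le_sum fun k _ => ?_)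
    rw [norm_mul]
  have hCS := Finset.sum_mul_sq_le_sq_mul_sq (Finset.Ico K (2 * K)) (fun k => ‖c k‖) (fun k => ‖g k‖)
  have hc2 : ∑ k ∈ Finset.Ico K (2 * K), ‖c k‖ ^ 2 ≤ K * ρ ^ 2 := by
    refine (Finset.sum_le_card_nsmul _ _ (ρ ^ 2) fun k hk =>
      pow_le_pow_left₀ (norm_nonneg _) (hc k hk) 2).trans ?_
    rw [Nat.card_Ico, nsmul_eq_mul]
    have : 2 * K - K = K := by omega
    rw [this]
  have h1 : ((S.card : ℝ) * W) ^ 2 ≤ (K * ρ ^ 2) * (S.card * Z) := by
    calc ((S.card : ℝ) * W) ^ 2 ≤ (∑ k ∈ Finset.Ico K (2 * K), ‖c k‖ * ‖g k‖) ^ 2 :=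
          pow_le_pow_left₀ (by positivity) (hlow.trans hup) 2
      _ ≤ _ := hCS
      _ ≤ (K * ρ ^ 2) * (S.card * Z) := by
          exact mul_le_mul hc2 hdual (Finset.sum_nonneg fun _ _ => by positivity) (by positivity)
  have h2 : (S.card : ℝ) * ((S.card : ℝ) * W ^ 2) ≤ (S.card : ℝ) * (K * ρ ^ 2 * Z) := by
    calc (S.card : ℝ) * ((S.card : ℝ) * W ^ 2) = ((S.card : ℝ) * W) ^ 2 := by ring
      _ ≤ _ := h1
      _ = _ := by ring
  exact le_of_mul_le_mul_left h2 hN0

/-- The number of cells with a large value. -/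
lemma block_cells {S : Finset ℕ} {x : ℕ → ℝ} {M H K : ℕ} {T Φ W ρ : ℝ} (hK : 1 ≤ K) (hΦ : 0 ≤ Φ) (hW : 0 < W)
    (hTK : 1 ≤ T * √K) (hS : ∀ m ∈ S, M < m ∧ m ≤ M + H)
    (hx : ∀ m ∈ S, ((m : ℝ) - 1) / √K ≤ x m ∧ x m ≤ m / √K)
    (hfar : ∀ t : ℝ, √K ≤ t → t ≤ T → ‖EK K t‖ ≤ Φ) (hΦ2 : K * ρ ^ 2 * Φ ≤ W ^ 2 / 2) (c : ℕ → ℂ)
    (hc : ∀ k ∈ Finset.Ico K (2 * K), ‖c k‖ ≤ ρ)
    (hlarge : ∀ n ∈ S, W ≤ ‖∑ k ∈ Finset.Ico K (2 * K), c k * ee (x n * √k)‖) :
    (S.card : ℝ) ≤ (2 * H / (T * √K) + 1) * (30 * K ^ 2 * ρ ^ 2 * (1 + Real.log (2 * K)) / W ^ 2) := by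
  have hK0 : (1 : ℝ) ≤ K := by exact_mod_cast hK
  have hsK : 0 < √(K : ℝ) := Real.sqrt_pos.2 (by linarith)
  have hlog : 0 ≤ Real.log (2 * K) := Real.log_nonneg (by linarith)
  obtain ⟨B, hB⟩ : ∃ B : ℝ, B = 30 * K ^ 2 * ρ ^ 2 * (1 + Real.log (2 * K)) / W ^ 2 := ⟨_, rfl⟩
  have hB0 : 0 ≤ B := by rw [hB]; positivity
  rw [← hB]
  obtain ⟨L, hL⟩ : ∃ L : ℕ, L = ⌊T * √(K : ℝ)⌋₊ := ⟨_, rfl⟩
  have hL1 : 1 ≤ L := by rw [hL]; exact Nat.le_floor (by simpa using hTK)
  have hLT : (L : ℝ) ≤ T * √K := by rw [hL]; exact Nat.floor_le (by linarith)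
  have hTL : T * √K ≤ 2 * L := by
    have h1 := Nat.lt_floor_add_one (T * √(K : ℝ))
    have h2 : (1 : ℝ) ≤ L := by exact_mod_cast hL1
    rw [← hL] at h1
    linarith
  have hL0 : (0 : ℝ) < L := by exact_mod_cast hL1
  have key := seg_count hL1 hS (B := B) hB0 ?_
  · refine key.trans (mul_le_mul_of_nonneg_right ?_ hB0)
    have h1 : (H : ℝ) / L ≤ 2 * H / (T * √K) := by
      rw [div_le_div_iff₀ hL0 (by linarith)]
      have : (H : ℝ) * (T * √K) ≤ H * (2 * L) := mul_le_mul_of_nonneg_left hTL (Nat.cast_nonneg _)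
      linarith
    linarith
  · intro S' hS' hdiam
    have hsum : ∀ m ∈ S', ∑ n ∈ S', ‖EK K (x m - x n)‖ ≤ 15 * K * (1 + Real.log (2 * K)) + S'.card * Φ := by
      intro m hm
      refine sum_EK_cell hK hΦ ?_ ?_ hfar hm
      · intro m hm n hn
        obtain ⟨a1, a2⟩ := hx m (hS' hm)
        obtain ⟨b1, b2⟩ := hx n (hS' hn)
        rw [div_le_iff₀ hsK] at a1 b1
        rw [le_div_iff₀ hsK] at a2 b2
        have h1 : √(K : ℝ) * |x m - x n| = |x m * √K - x n * √K| := by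
          rw [← sub_mul, abs_mul, abs_of_pos hsK, mul_comm]
        rw [h1]
        rcases abs_cases ((m : ℝ) - n) with ⟨h2, _⟩ | ⟨h2, _⟩
        · rw [h2]
          have := le_abs_self (x m * √K - x n * √K)
          linarith
        · rw [h2]
          have := neg_le_abs (x m * √K - x n * √K)
          linarith
      · intro m hm n hn
        obtain ⟨a1, a2⟩ := hx m (hS' hm)
        obtain ⟨b1, b2⟩ := hx n (hS' hn)
        have h2 := hdiam m hm n hn
        have h3 := hdiam n hn m hm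
        have h4 : (m : ℝ) + 1 ≤ n + L := by exact_mod_cast h2
        have h5 : (n : ℝ) + 1 ≤ m + L := by exact_mod_cast h3
        rw [div_le_iff₀ hsK] at a1 b1
        rw [le_div_iff₀ hsK] at a2 b2
        have h6 : |x m * √K - x n * √K| ≤ T * √K := by
          rw [abs_le]
          constructor <;> linarith
        rw [← sub_mul, abs_mul, abs_of_pos hsK] at h6
        exact le_of_mul_le_mul_right h6 hsK
    have h1 := block_dual (by positivity) hsum c hc hW.le (fun m hm => hlarge m (hS' hm))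
    have h2 : K * ρ ^ 2 * (15 * K * (1 + Real.log (2 * K)) + S'.card * Φ) ≤
        15 * K ^ 2 * ρ ^ 2 * (1 + Real.log (2 * K)) + S'.card * (W ^ 2 / 2) := by
      have h3 := mul_le_mul_of_nonneg_left hΦ2 (Nat.cast_nonneg (α := ℝ) S'.card)
      linarith
    have h3 := h1.trans h2
    rw [hB, le_div_iff₀ (by positivity)]
    linarith

end Pool.Agent.Helper53.TM
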