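import Mathlib
import Pool.Agent.Helper53.TM.T2

/-!
# TM-T3: the measure of the large values of a block
-/

open MeasureTheory Set Filter
open scoped Real ComplexConjugate Topology

set_option autoImplicit false

namespace Pool.Agent.Helper53.TM

open Pool.Agent.Helper22.GC (EK EK_trivial EK_neg EK_small EK_large ee ee_add norm_ee conj_ee)

/-- the parameters: `T` and the bound for the far part -/
lemma params {C q b K : ℝ} (hC : 1 ≤ C) (hq : C ≤ q) (hb : 1 ≤ b) (hKb : K = b ^ 12) (E : ℝ → ℝ)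
    (h2 : ∀ t T : ℝ, b ^ 6 ≤ t → t ≤ T → E t ≤ 70 * (√T * b ^ 3))
    (h3 : ∀ t : ℝ, 0 < t → E t ≤ C * (b ^ 7 * t ^ (1 / 6 : ℝ) + b ^ 11 * t ^ (-(1 / 6) : ℝ))) :
    ∃ T : ℝ, 1 ≤ T * b ^ 6 ∧ q ^ 12 ≤ C ^ 6 * T ∧ ∀ t : ℝ, b ^ 6 ≤ t → t ≤ T → E t ≤ 70 * q ^ 3 * b ^ 6 := by
  have hq0 : 0 < q := by linarith
  have hq1 : 1 ≤ q := by linarith
  have hb0 : 0 < b := by linarith
  have hC0 : 0 < C := by linarith
  have sixth : ∀ y : ℝ, 0 ≤ y → (y ^ 6) ^ (1 / 6 : ℝ) = y := by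
    intro y hy
    rw [← Real.rpow_natCast, ← Real.rpow_mul hy]
    norm_num
  have hA : ∀ t T : ℝ, b ^ 6 ≤ t → t ≤ T → T ≤ (q * b) ^ 6 → E t ≤ 70 * q ^ 3 * b ^ 6 := by
    intro t T h4 h5 h6
    refine (h2 t ((q * b) ^ 6) h4 (h5.trans h6)).trans (le_of_eq ?_)
    have : √((q * b) ^ 6) = (q * b) ^ 3 := by
      rw [show (q * b) ^ 6 = ((q * b) ^ 3) ^ 2 by ring, Real.sqrt_sq (by positivity)]
    rw [this]
    ring
  rcases le_or_gt (C * b ^ 4) (35 * q ^ 4) with hcase | hcase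
  · -- the range of the third derivative
    obtain ⟨s, hs⟩ : ∃ s : ℝ, s = 35 * q ^ 3 / (C * b) := ⟨_, rfl⟩
    have hs0 : 0 < s := by rw [hs]; positivity
    refine ⟨s ^ 6, ?_, ?_, ?_⟩
    · rw [← mul_pow]
      refine one_le_pow₀ ?_
      rw [hs]
      have : 35 * q ^ 3 / (C * b) * b = 35 * q ^ 3 / C := by field_simp
      rw [this, one_le_div hC0]
      have h4 : q ≤ q ^ 3 := by
        calc q = q ^ 1 := (pow_one q).symm
          _ ≤ q ^ 3 := pow_le_pow_right₀ hq1 (by norm_num)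
      linarith [pow_pos hq0 3]
    · rw [← mul_pow]
      have h4 : q ^ 2 ≤ C * s := by
        rw [hs]
        have e : C * (35 * q ^ 3 / (C * b)) = 35 * q ^ 3 / b := by field_simp
        rw [e, le_div_iff₀ hb0]
        have h5 : b ^ 4 ≤ (3 * q) ^ 4 := by
          have h6 : b ^ 4 ≤ C * b ^ 4 := le_mul_of_one_le_left (by positivity) hC
          have h7 : 0 < q ^ 4 := by positivity
          have e2 : (3 * q) ^ 4 = 81 * q ^ 4 := by ring
          rw [e2]
          linarith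
        have h6 : b ≤ 3 * q := le_of_pow_le_pow_left₀ (by norm_num) (by positivity) h5
        calc q ^ 2 * b ≤ q ^ 2 * (3 * q) := mul_le_mul_of_nonneg_left h6 (by positivity)
          _ = 3 * q ^ 3 := by ring
          _ ≤ 35 * q ^ 3 := by linarith [pow_pos hq0 3]
      calc q ^ 12 = (q ^ 2) ^ 6 := by ring
        _ ≤ (C * s) ^ 6 := pow_le_pow_left₀ (by positivity) h4 6
    · intro t h4 h5
      rcases le_or_gt t ((q * b) ^ 6) with h6 | h6
      · exact hA t t h4 le_rfl h6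
      · have ht0 : 0 < t := lt_of_lt_of_le (by positivity) h4
        refine (h3 t ht0).trans ?_
        have h7 : t ^ (1 / 6 : ℝ) ≤ s := by
          rw [← sixth s hs0.le]
          exact Real.rpow_le_rpow ht0.le h5 (by norm_num)
        have h8 : t ^ (-(1 / 6) : ℝ) ≤ 1 / (q * b) := by
          have h9 : ((q * b) ^ 6) ^ (-(1 / 6) : ℝ) = 1 / (q * b) := by
            rw [Real.rpow_neg (by positivity), sixth _ (by positivity), one_div]
          rw [← h9]
          exact Real.rpow_le_rpow_of_nonpos (by positivity) h6.le (by norm_num)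
        have h9 : C * (b ^ 7 * t ^ (1 / 6 : ℝ)) ≤ 35 * q ^ 3 * b ^ 6 := by
          calc C * (b ^ 7 * t ^ (1 / 6 : ℝ)) ≤ C * (b ^ 7 * s) := by gcongr
            _ = 35 * q ^ 3 * b ^ 6 := by rw [hs]; field_simp
        have h10 : C * (b ^ 11 * t ^ (-(1 / 6) : ℝ)) ≤ 35 * q ^ 3 * b ^ 6 := by
          calc C * (b ^ 11 * t ^ (-(1 / 6) : ℝ)) ≤ C * (b ^ 11 * (1 / (q * b))) := by gcongr
            _ = C * b ^ 4 * (b ^ 6 / q) := by field_simp
            _ ≤ 35 * q ^ 4 * (b ^ 6 / q) := mul_le_mul_of_nonneg_right hcase (by positivity)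
            _ = 35 * q ^ 3 * b ^ 6 := by field_simp
        rw [mul_add]
        linarith
  · refine ⟨(q * b) ^ 6, ?_, ?_, fun t h4 h5 => hA t _ h4 h5 le_rfl⟩
    · refine one_le_mul_of_one_le_of_one_le (one_le_pow₀ ?_) (one_le_pow₀ hb)
      exact one_le_mul_of_one_le_of_one_le hq1 hb
    · rw [← mul_pow]
      have h4 : q ≤ C * b := by
        have h5 : q ^ 4 ≤ (C * b) ^ 4 := by
          have h6 : C * b ^ 4 ≤ (C * b) ^ 4 := by
            rw [mul_pow]
            refine mul_le_mul_of_nonneg_right ?_ (by positivity)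
            calc C = C ^ 1 := (pow_one C).symm
              _ ≤ C ^ 4 := pow_le_pow_right₀ hC (by norm_num)
          linarith [pow_pos hq0 4]
        exact le_of_pow_le_pow_left₀ (by norm_num) (by positivity) h5
      calc q ^ 12 = (q * q) ^ 6 := by ring
        _ ≤ (C * (q * b)) ^ 6 := by
            refine pow_le_pow_left₀ (by positivity) ?_ 6
            calc q * q ≤ q * (C * b) := mul_le_mul_of_nonneg_left h4 hq0.le
              _ = C * (q * b) := by ring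

/-- the measure of the large values of a block -/
theorem block_measure : ∃ C : ℝ, 1 ≤ C ∧ ∀ (K : ℕ) (c : ℕ → ℂ) (ρ q W A B : ℝ), 1 ≤ K → 0 < q → 0 < W → 0 ≤ A → A ≤ B →
    W ^ 2 = 140 * q ^ 3 * (K * √K * ρ ^ 2) → (∀ k ∈ Finset.Ico K (2 * K), ‖c k‖ ≤ ρ) →
    volume {r : ℝ | r ∈ Icc A B ∧ W ≤ ‖∑ k ∈ Finset.Ico K (2 * K), c k * ee (r * √k)‖} ≤
      ENNReal.ofReal (C * (1 + Real.log (2 * K)) * ((B - A) / q ^ 15 + 1 / q ^ 3)) := by
  classical
  obtain ⟨C, hC, hEK⟩ := EK_third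
  refine ⟨C ^ 15 + 5, by linarith [one_le_pow₀ (n := 15) hC], ?_⟩
  intro K c ρ q W A B hK hq hW hA hAB hWq hc
  have hK1 : (1 : ℝ) ≤ K := by exact_mod_cast hK
  have hK0 : (0 : ℝ) < K := by linarith
  have hsK : 0 < √(K : ℝ) := Real.sqrt_pos.2 hK0
  have hlog : 0 ≤ Real.log (2 * K) := Real.log_nonneg (by linarith)
  have hC0 : 0 < C := by linarith
  have hC15 : 1 ≤ C ^ 15 := one_le_pow₀ hC
  rcases lt_or_ge q C with hqC | hqC
  · -- the trivial bound
    have h1 : volume {r : ℝ | r ∈ Icc A B ∧ W ≤ ‖∑ k ∈ Finset.Ico K (2 * K), c k * ee (r * √k)‖} ≤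
        ENNReal.ofReal (B - A) := by
      rw [← Real.volume_Icc]
      exact measure_mono fun r hr => hr.1
    refine h1.trans (ENNReal.ofReal_le_ofReal ?_)
    have h2 : B - A ≤ C ^ 15 * ((B - A) / q ^ 15) := by
      rw [← mul_div_assoc, le_div_iff₀ (by positivity), mul_comm]
      exact mul_le_mul_of_nonneg_right (pow_le_pow_left₀ hq.le hqC.le 15) (by linarith)
    have h3 : 0 ≤ (B - A) / q ^ 15 := div_nonneg (by linarith) (by positivity)
    have h4 : 0 ≤ 1 / q ^ 3 := by positivity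
    calc B - A ≤ C ^ 15 * ((B - A) / q ^ 15) := h2
      _ ≤ ((C ^ 15 + 5) * (1 + Real.log (2 * K))) * ((B - A) / q ^ 15 + 1 / q ^ 3) := by
          refine mul_le_mul ?_ (by linarith) h3 (by positivity)
          nlinarith
      _ = _ := by ring
  obtain ⟨b, hb⟩ : ∃ b : ℝ, b = (K : ℝ) ^ (1 / 12 : ℝ) := ⟨_, rfl⟩
  have hb1 : 1 ≤ b := by rw [hb]; exact Real.one_le_rpow hK1 (by norm_num)
  have hpow : ∀ n : ℕ, b ^ n = (K : ℝ) ^ ((n : ℝ) / 12) := by
    intro n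
    rw [hb, ← Real.rpow_natCast, ← Real.rpow_mul hK0.le]
    congr 1
    ring
  have hb12 : (K : ℝ) = b ^ 12 := by
    rw [hpow]
    norm_num
  have hb6 : √(K : ℝ) = b ^ 6 := by
    rw [hpow, Real.sqrt_eq_rpow]
    norm_num
  have hb3 : √(√(K : ℝ)) = b ^ 3 := by
    rw [hb6, show b ^ 6 = (b ^ 3) ^ 2 by ring, Real.sqrt_sq (by positivity)]
  obtain ⟨T, hT1, hT2, hT3⟩ := params (E := fun t => ‖EK K t‖) hC hqC hb1 hb12
    (by
      intro t T h1 h2
      have := EK_large hK (by rw [hb6]; exact h1) h2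
      rwa [hb3] at this)
    (by
      intro t h1
      have := hEK K t hK h1
      rw [hpow 7, hpow 11]
      norm_num at this ⊢
      exact this)
  have hT0 : 0 < T := by
    have h1 : 0 < T * b ^ 6 := by linarith
    exact pos_of_mul_pos_left h1 (by positivity)
  rw [← hb6] at hT1
  obtain ⟨M, hM⟩ : ∃ M : ℕ, M = ⌊A * √(K : ℝ)⌋₊ := ⟨_, rfl⟩
  obtain ⟨M', hM'⟩ : ∃ M' : ℕ, M' = ⌊B * √(K : ℝ)⌋₊ := ⟨_, rfl⟩
  have hMM : M ≤ M' := by
    rw [hM, hM']
    exact Nat.floor_le_floor (mul_le_mul_of_nonneg_right hAB hsK.le)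
  obtain ⟨H, hH⟩ : ∃ H : ℕ, M + H = M' + 1 := ⟨M' + 1 - M, by omega⟩
  have hHr : (H : ℝ) ≤ (B - A) * √K + 2 := by
    have h1 : (M' : ℝ) ≤ B * √K := by
      rw [hM']
      exact Nat.floor_le (mul_nonneg (hA.trans hAB) hsK.le)
    have h2 : A * √K < M + 1 := by
      rw [hM]
      exact Nat.lt_floor_add_one _
    have h3 : (M : ℝ) + H = M' + 1 := by exact_mod_cast hH
    linarith
  set f : ℝ → ℂ := fun r => ∑ k ∈ Finset.Ico K (2 * K), c k * ee (r * √k) with hf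
  set S : Finset ℕ := (Finset.Ioc M (M + H)).filter
    (fun m => ∃ r : ℝ, (((m : ℝ) - 1) / √K ≤ r ∧ r ≤ m / √K) ∧ W ≤ ‖f r‖) with hS
  have hch : ∀ m : ℕ, ∃ r : ℝ, m ∈ S → ((((m : ℝ) - 1) / √K ≤ r ∧ r ≤ m / √K) ∧ W ≤ ‖f r‖) := by
    intro m
    by_cases hm : m ∈ S
    · obtain ⟨r, hr⟩ := (Finset.mem_filter.1 hm).2
      exact ⟨r, fun _ => hr⟩
    · exact ⟨0, fun h => absurd h hm⟩
  choose x hx using hch
  have hcard := block_cells (S := S) (x := x) (M := M) (H := H) (T := T) (Φ := 70 * q ^ 3 * b ^ 6) (W := W) (ρ := ρ)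
    hK (by positivity) hW hT1
    (fun m hm => by
      have := (Finset.mem_filter.1 hm).1
      rwa [Finset.mem_Ioc] at this)
    (fun m hm => (hx m hm).1)
    (fun t h1 h2 => hT3 t (by rw [← hb6]; exact h1) h2)
    (by
      rw [hWq, ← hb6]
      refine le_of_eq ?_
      have h5 : √(K : ℝ) * √K = K := Real.mul_self_sqrt hK0.le
      ring)
    c hc (fun m hm => (hx m hm).2)
  have hcover : {r : ℝ | r ∈ Icc A B ∧ W ≤ ‖f r‖} ⊆ ⋃ m ∈ S, Icc (((m : ℝ) - 1) / √K) (m / √K) := by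
    intro r hr
    obtain ⟨hr1, hr2⟩ := hr
    have hr0 : 0 ≤ r * √(K : ℝ) := mul_nonneg (hA.trans hr1.1) hsK.le
    obtain ⟨j, hj⟩ : ∃ j : ℕ, j = ⌊r * √(K : ℝ)⌋₊ := ⟨_, rfl⟩
    have h1 : (j : ℝ) ≤ r * √K := by rw [hj]; exact Nat.floor_le hr0
    have h2 : r * √K < j + 1 := by rw [hj]; exact Nat.lt_floor_add_one _
    have h3 : (((j + 1 : ℕ) : ℝ) - 1) / √K ≤ r := by
      rw [div_le_iff₀ hsK]
      push_cast
      linarith
    have h4 : r ≤ ((j + 1 : ℕ) : ℝ) / √K := by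
      rw [le_div_iff₀ hsK]
      push_cast
      linarith
    rw [mem_iUnion₂]
    refine ⟨j + 1, ?_, h3, h4⟩
    rw [hS, Finset.mem_filter, Finset.mem_Ioc]
    refine ⟨⟨?_, ?_⟩, r, ⟨h3, h4⟩, hr2⟩
    · have : M ≤ j := by
        rw [hM, hj]
        exact Nat.floor_le_floor (mul_le_mul_of_nonneg_right hr1.1 hsK.le)
      omega
    · have : j ≤ M' := by
        rw [hM', hj]
        exact Nat.floor_le_floor (mul_le_mul_of_nonneg_right hr1.2 hsK.le)
      omega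
  have hvol : volume {r : ℝ | r ∈ Icc A B ∧ W ≤ ‖f r‖} ≤ ENNReal.ofReal (S.card * (1 / √K)) := by
    refine (measure_mono hcover).trans ((measure_biUnion_finset_le _ _).trans ?_)
    have h1 : ∀ m ∈ S, volume (Icc (((m : ℝ) - 1) / √(K : ℝ)) (m / √K)) = ENNReal.ofReal (1 / √K) := by
      intro m _
      rw [Real.volume_Icc]
      congr 1
      ring
    rw [Finset.sum_congr rfl h1, Finset.sum_const, nsmul_eq_mul, ENNReal.ofReal_mul (Nat.cast_nonneg _),
      ENNReal.ofReal_natCast]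
  refine hvol.trans (ENNReal.ofReal_le_ofReal ?_)
  obtain ⟨Lg, hLg⟩ : ∃ Lg : ℝ, Lg = 1 + Real.log (2 * K) := ⟨_, rfl⟩
  have hLg1 : 1 ≤ Lg := by rw [hLg]; linarith
  rw [← hLg] at hcard ⊢
  have h1 : 30 * (K : ℝ) ^ 2 * ρ ^ 2 * Lg / W ^ 2 * (1 / √K) = 30 / 140 * Lg / q ^ 3 := by
    have hρ : 0 < (K : ℝ) * √K * ρ ^ 2 := by
      have h2 : 0 < W ^ 2 := by positivity
      rw [hWq] at h2
      exact pos_of_mul_pos_right h2 (by positivity)
    have hρ2 : ρ ≠ 0 := by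
      rintro rfl
      simp at hρ
    rw [hWq]
    have h5 : (K : ℝ) = √K * √K := (Real.mul_self_sqrt hK0.le).symm
    have h6 : (K : ℝ) ^ 2 = K * √K * √K := by rw [mul_assoc, ← h5]; ring
    rw [h6]
    field_simp
  have h2 : 2 * (H : ℝ) / (T * √K) + 1 ≤ 2 * (C ^ 6 * ((B - A) / q ^ 12)) + 5 := by
    have e1 : 2 * (H : ℝ) / (T * √K) ≤ 2 * ((B - A) * √K + 2) / (T * √K) :=
      div_le_div_of_nonneg_right (by linarith) (by positivity)
    have e2 : 2 * ((B - A) * √K + 2) / (T * √K) = 2 * ((B - A) / T) + 4 / (T * √K) := by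
      field_simp
      ring
    have e3 : 4 / (T * √K) ≤ 4 := by
      rw [div_le_iff₀ (by positivity)]
      linarith
    have e4 : (B - A) / T ≤ C ^ 6 * ((B - A) / q ^ 12) := by
      rw [← mul_div_assoc, div_le_div_iff₀ hT0 (by positivity)]
      have := mul_le_mul_of_nonneg_left hT2 (sub_nonneg.2 hAB)
      linarith
    linarith
  have hq3 : 0 < q ^ 3 := by positivity
  calc (S.card : ℝ) * (1 / √K) ≤ ((2 * H / (T * √K) + 1) * (30 * K ^ 2 * ρ ^ 2 * Lg / W ^ 2)) * (1 / √K) :=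
        mul_le_mul_of_nonneg_right hcard (by positivity)
    _ = (2 * H / (T * √K) + 1) * (30 / 140 * Lg / q ^ 3) := by rw [mul_assoc, h1]
    _ ≤ (2 * (C ^ 6 * ((B - A) / q ^ 12)) + 5) * (30 / 140 * Lg / q ^ 3) :=
        mul_le_mul_of_nonneg_right h2 (by positivity)
    _ = Lg * (2 * (30 / 140) * C ^ 6 * ((B - A) / q ^ 15) + 5 * (30 / 140) * (1 / q ^ 3)) := by
        field_simp
    _ ≤ Lg * ((C ^ 15 + 5) * ((B - A) / q ^ 15) + (C ^ 15 + 5) * (1 / q ^ 3)) := by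
        have h3 : 0 ≤ (B - A) / q ^ 15 := div_nonneg (by linarith) (by positivity)
        have h4 : C ^ 6 ≤ C ^ 15 := pow_le_pow_right₀ hC (by norm_num)
        refine mul_le_mul_of_nonneg_left (add_le_add (mul_le_mul_of_nonneg_right ?_ h3)
          (mul_le_mul_of_nonneg_right ?_ (by positivity))) (by linarith)
        · linarith
        · linarith
    _ = _ := by ring

end Pool.Agent.Helper53.TM
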