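import Mathlib
import Pool.Agent.Helper22.GC.Approx

/-!
# TM-T4: the smoothed Hardy formula for every centre
-/

open MeasureTheory Set Filter
open scoped Real ComplexConjugate Topology

set_option autoImplicit false

namespace Pool.Agent.Helper53.TM

open Pool.Agent.Helper22.GC

/-! ### The count with centre `-a` -/

lemma box_of_le1 {R : ℝ} {x : Fin 2 → ℝ} (hx : ∀ i, |x i| ≤ 1) {n : ℕ} (hn : |R| ≤ n)
    {v : Fin 2 → ℤ} (hv : (x 0 + v 0) ^ 2 + (x 1 + v 1) ^ 2 ≤ R ^ 2) : v ∈ box (n + 1) := by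
  rw [mem_box]
  have key : ∀ i, (x i + v i) ^ 2 ≤ R ^ 2 := by
    intro i
    fin_cases i
    · show (x 0 + v 0) ^ 2 ≤ R ^ 2
      nlinarith [sq_nonneg (x 1 + v 1)]
    · show (x 1 + v 1) ^ 2 ≤ R ^ 2
      nlinarith [sq_nonneg (x 0 + v 0)]
  intro i
  have h1 := abs_le.mp (sq_le_sq.mp (key i))
  have h2 := abs_le.mp (hx i)
  have h3 : (v i : ℝ) ≤ (n : ℝ) + 1 := by linarith
  have h4 : -((n : ℝ) + 1) ≤ (v i : ℝ) := by linarith
  constructor
  · have : ((-((n : ℤ) + 1) : ℤ) : ℝ) ≤ ((v i : ℤ) : ℝ) := by push_cast; linarith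
    have := Int.cast_le.mp this
    push_cast
    linarith
  · have : ((v i : ℤ) : ℝ) ≤ (((n : ℤ) + 1 : ℤ) : ℝ) := by push_cast; linarith
    have := Int.cast_le.mp this
    push_cast
    linarith

lemma cntSet_finite1 (R : ℝ) (x : Fin 2 → ℝ) (hx : ∀ i, |x i| ≤ 1) : (cntSet R x).Finite := by
  refine (box (⌈|R|⌉₊ + 1)).finite_toSet.subset fun v hv => ?_
  exact box_of_le1 hx (Nat.le_ceil _) hv

lemma cnt_eq_sum1 {R : ℝ} {x : Fin 2 → ℝ} (hx : ∀ i, |x i| ≤ 1) {n : ℕ} (hn : |R| ≤ n) :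
    (cnt R x : ℂ) = ∑ v ∈ box (n + 1), ball R (fun i => x i + v i) := by
  classical
  have h1 : cntSet R x = ((box (n + 1)).filter
      (fun v => (x 0 + v 0) ^ 2 + (x 1 + v 1) ^ 2 ≤ R ^ 2) : Finset (Fin 2 → ℤ)) := by
    ext v
    simp only [cntSet, mem_ofPred_eq, Finset.coe_filter]
    exact ⟨fun h => ⟨box_of_le1 hx hn h, h⟩, fun h => h.2⟩
  rw [cnt, h1, Set.ncard_coe_finset, Finset.card_filter]
  push_cast
  rfl

lemma cube_add {x a : Fin 2 → ℝ} (hx : x ∈ cube) (ha : ∀ i, |a i| ≤ 1 / 2) (i : Fin 2) : |x i + a i| ≤ 1 := by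
  have h1 := abs_le_of_mem_cube hx i
  have h2 := ha i
  have := abs_add_le (x i) (a i)
  linarith

lemma ek_sub (k : Fin 2 → ℤ) (y a : Fin 2 → ℝ) : ek (-k) (fun i => y i - a i) = ek (-k) y * ek k a := by
  unfold ek
  rw [← Complex.exp_add]
  congr 1
  simp only [Pi.neg_apply]
  push_cast
  ring

lemma cubeCoeff_cnt_c {a : Fin 2 → ℝ} (ha : ∀ i, |a i| ≤ 1 / 2) (R : ℝ) (k : Fin 2 → ℤ) :
    cubeCoeff (fun x => (∑ v ∈ box (⌈|R|⌉₊ + 1), ball R (fun i => x i + a i + v i))) k = ek k a * D R k := by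
  have hn : |R| ≤ (⌈|R|⌉₊ : ℝ) := Nat.le_ceil _
  have hint0 : Integrable (fun y : Fin 2 → ℝ => ek (-k) (fun i => y i - a i) * ball R y) := by
    refine integrable_mul_ball (C := 1) ?_ (fun x => (norm_ek _ _).le) R
    exact (continuous_ek _).measurable.comp (by fun_prop)
  have hint : Integrable (fun x : Fin 2 → ℝ => ek (-k) x * ball R (fun i => x i + a i)) := by
    have h := hint0.comp_add_right a
    refine h.congr (Filter.Eventually.of_forall fun x => ?_)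
    show ek (-k) (fun i => x i + a i - a i) * ball R (fun i => x i + a i) = _
    have : (fun i => x i + a i - a i) = x := by funext i; ring
    rw [this]
  have h1 : D R k = ∫ y, ek (-k) y * ball R y := rfl
  have h2 : ∫ x, ek (-k) x * ball R (fun i => x i + a i) = ek k a * D R k := by
    have e := integral_add_right_eq_self (μ := (volume : Measure (Fin 2 → ℝ)))
      (fun y : Fin 2 → ℝ => ek (-k) (fun i => y i - a i) * ball R y) a
    have e2 : ∀ x : Fin 2 → ℝ, ek (-k) (fun i => (x + a) i - a i) * ball R (x + a) =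
        ek (-k) x * ball R (fun i => x i + a i) := by
      intro x
      have : (fun i => (x + a) i - a i) = x := by funext i; simp
      rw [this]
      rfl
    simp only [e2] at e
    rw [e, h1, ← integral_const_mul]
    congr 1
    funext y
    rw [ek_sub]
    ring
  rw [cubeCoeff, ← h2, ← unfold_cube (F := fun x => ek (-k) x * ball R (fun i => x i + a i)) hint
    (box (⌈|R|⌉₊ + 1))]
  · refine setIntegral_congr_fun measurableSet_cube fun x _ => ?_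
    simp only [ek_add_int, Finset.mul_sum]
    refine Finset.sum_congr rfl fun v _ => ?_
    congr 2
    funext i
    ring
  · intro x hx v hv
    have h3 : ball R (fun i => x i + v i + a i) = 0 := by
      unfold ball
      rw [if_neg]
      intro h
      refine hv (box_of_le1 (x := fun i => x i + a i) (cube_add hx ha) hn ?_)
      have e0 : x 0 + a 0 + (v 0 : ℝ) = x 0 + v 0 + a 0 := by ring
      have e1 : x 1 + a 1 + (v 1 : ℝ) = x 1 + v 1 + a 1 := by ring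
      show (x 0 + a 0 + (v 0 : ℝ)) ^ 2 + (x 1 + a 1 + (v 1 : ℝ)) ^ 2 ≤ R ^ 2
      rw [e0, e1]
      exact h
    show ek (-k) _ * ball R (fun i => x i + v i + a i) = 0
    rw [h3, mul_zero]

/-- The smoothed count with centre `-a`. -/
noncomputable def Smc (a : Fin 2 → ℝ) (δ R : ℝ) : ℝ := ∫ x in cube, phi δ x * (cnt R (fun i => x i + a i) : ℝ)

lemma norm_sum_ball_le_c (R : ℝ) (n : ℕ) (x : Fin 2 → ℝ) (a : Fin 2 → ℝ) :
    ‖∑ v ∈ box n, ball R (fun i => x i + a i + v i)‖ ≤ (box n).card := by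
  refine (norm_sum_le _ _).trans ?_
  refine (Finset.sum_le_card_nsmul _ _ 1 fun v _ => norm_ball_le R _).trans ?_
  simp

lemma meas_sum (R : ℝ) (a : Fin 2 → ℝ) : Measurable (fun x : Fin 2 → ℝ =>
      ∑ v ∈ box (⌈|R|⌉₊ + 1), ball R (fun i => x i + a i + v i)) := by
  refine Finset.measurable_sum _ fun v _ => ?_
  exact (measurable_ball R).comp (by fun_prop)

/-- The smoothed lattice point count as an absolutely convergent Fourier sum. -/
theorem smooth_hasSum_c {a : Fin 2 → ℝ} (ha : ∀ i, |a i| ≤ 1 / 2) {δ : ℝ} (hδ : 0 < δ) (hδ' : δ ≤ 1 / 2) (R : ℝ) :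
    HasSum (fun k : Fin 2 → ℤ => ((wt δ (k 0) * wt δ (k 1) : ℝ) : ℂ) * (ek k a * D R k))
      ((Smc a δ R : ℝ) : ℂ) := by
  have h := parseval_cube (f := fun x => (phi δ x : ℂ))
    (g := fun x => ∑ v ∈ box (⌈|R|⌉₊ + 1), ball R (fun i => x i + a i + v i))
    (Complex.continuous_ofReal.measurable.comp (continuous_phi δ).measurable) (meas_sum R a)
    (Cf := 1 / δ * (1 / δ)) (Cg := (box (⌈|R|⌉₊ + 1)).card)
    (fun x => by
      rw [Complex.norm_real, Real.norm_eq_abs, abs_of_nonneg (phi_nonneg hδ x)]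
      exact phi_le hδ x)
    (fun x => norm_sum_ball_le_c R _ x a)
  simp only [cubeCoeff_phi hδ hδ', cubeCoeff_cnt_c ha, Complex.conj_ofReal] at h
  convert h using 1
  rw [Smc, ← integral_complex_ofReal]
  refine setIntegral_congr_fun measurableSet_cube fun x hx => ?_
  rw [← cnt_eq_sum1 (x := fun i => x i + a i) (cube_add hx ha) (Nat.le_ceil _)]
  push_cast
  rfl

lemma integrableOn_phi_cnt_c {a : Fin 2 → ℝ} (ha : ∀ i, |a i| ≤ 1 / 2) {δ : ℝ} (hδ : 0 < δ) (R : ℝ) :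
    IntegrableOn (fun x => phi δ x * (cnt R (fun i => x i + a i) : ℝ)) cube := by
  have hcube : volume cube ≠ ⊤ := by
    have : cube ⊆ Set.pi Set.univ (fun _ : Fin 2 => Icc (-(1 / 2) : ℝ) (-(1 / 2) + 1)) := by
      intro x hx i _
      exact Ioc_subset_Icc_self (hx i)
    exact ((measure_mono this).trans_lt
      (isCompact_univ_pi fun _ => isCompact_Icc).measure_lt_top).ne
  have h1 : IntegrableOn (fun x => phi δ x *
      (∑ v ∈ box (⌈|R|⌉₊ + 1), ball R (fun i => x i + a i + v i)).re) cube := by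
    refine Measure.integrableOn_of_bounded (M := 1 / δ * (1 / δ) * (box (⌈|R|⌉₊ + 1)).card)
      hcube ?_ ?_
    · exact ((continuous_phi δ).measurable.mul
        (Complex.measurable_re.comp (meas_sum R a))).aestronglyMeasurable
    · refine Filter.Eventually.of_forall fun x => ?_
      rw [norm_mul]
      refine mul_le_mul ?_ ?_ (norm_nonneg _) (by positivity)
      · rw [Real.norm_eq_abs, abs_of_nonneg (phi_nonneg hδ x)]
        exact phi_le hδ x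
      · exact (Complex.abs_re_le_norm _).trans (norm_sum_ball_le_c R _ x a)
  refine h1.congr_fun (fun x hx => ?_) measurableSet_cube
  show phi δ x * (∑ v ∈ box (⌈|R|⌉₊ + 1), ball R (fun i => x i + a i + v i)).re =
    phi δ x * (cnt R (fun i => x i + a i) : ℝ)
  rw [← cnt_eq_sum1 (x := fun i => x i + a i) (cube_add hx ha) (Nat.le_ceil _)]
  simp

lemma integrableOn_phi_const {δ : ℝ} (hδ : 0 < δ) (hδ' : δ ≤ 1 / 2) (b : ℝ) :
    IntegrableOn (fun x => phi δ x * b) cube := by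
  have h2 : IntegrableOn (phi δ) cube := by
    by_contra hcon
    have := integral_undef hcon
    rw [integral_phi hδ hδ'] at this
    exact one_ne_zero this
  exact h2.mul_const b

lemma le_Smc {a : Fin 2 → ℝ} (ha : ∀ i, |a i| ≤ 1 / 2) {δ : ℝ} (hδ : 0 < δ) (hδ' : δ ≤ 1 / 2) (R b : ℝ)
    (h : ∀ x ∈ cube, |x 0| ≤ δ → |x 1| ≤ δ → b ≤ cnt R (fun i => x i + a i)) : b ≤ Smc a δ R := by
  have h1 : b = ∫ x in cube, phi δ x * b := by
    rw [integral_mul_const, integral_phi hδ hδ', one_mul]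
  rw [h1]
  refine setIntegral_mono_on (integrableOn_phi_const hδ hδ' b) (integrableOn_phi_cnt_c ha hδ R) measurableSet_cube
    fun x hx => ?_
  by_cases hx0 : |x 0| ≤ δ
  · by_cases hx1 : |x 1| ≤ δ
    · exact mul_le_mul_of_nonneg_left (h x hx hx0 hx1) (phi_nonneg hδ x)
    · rw [phi, tent_eq_zero hδ (not_le.mp hx1).le]; simp
  · rw [phi, tent_eq_zero hδ (not_le.mp hx0).le]; simp

lemma Smc_le {a : Fin 2 → ℝ} (ha : ∀ i, |a i| ≤ 1 / 2) {δ : ℝ} (hδ : 0 < δ) (hδ' : δ ≤ 1 / 2) (R b : ℝ)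
    (h : ∀ x ∈ cube, |x 0| ≤ δ → |x 1| ≤ δ → (cnt R (fun i => x i + a i) : ℝ) ≤ b) : Smc a δ R ≤ b := by
  have h1 : b = ∫ x in cube, phi δ x * b := by
    rw [integral_mul_const, integral_phi hδ hδ', one_mul]
  rw [h1]
  refine setIntegral_mono_on (integrableOn_phi_cnt_c ha hδ R) (integrableOn_phi_const hδ hδ' b) measurableSet_cube
    fun x hx => ?_
  by_cases hx0 : |x 0| ≤ δ
  · by_cases hx1 : |x 1| ≤ δ
    · exact mul_le_mul_of_nonneg_left (h x hx hx0 hx1) (phi_nonneg hδ x)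
    · rw [phi, tent_eq_zero hδ (not_le.mp hx1).le]; simp
  · rw [phi, tent_eq_zero hδ (not_le.mp hx0).le]; simp

theorem cnt_le_Smc {a : Fin 2 → ℝ} (ha : ∀ i, |a i| ≤ 1 / 2) {R δ : ℝ} (hR : 0 ≤ R) (hδ : 0 < δ) (hδ' : δ ≤ 1 / 2) :
    (cnt R a : ℝ) ≤ Smc a δ (R + 2 * δ) := by
  refine le_Smc ha hδ hδ' _ _ fun x hx h0 h1 => ?_
  have h5 : cnt R a ≤ cnt (R + 2 * δ) (fun i => x i + a i) := by
    refine Set.ncard_le_ncard ?_ (cntSet_finite1 _ _ (cube_add hx ha))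
    intro v hv
    simp only [cntSet, mem_ofPred_eq] at hv ⊢
    have h2 : x 0 ^ 2 ≤ δ ^ 2 := by rw [sq_le_sq, abs_of_pos hδ]; exact h0
    have h3 : x 1 ^ 2 ≤ δ ^ 2 := by rw [sq_le_sq, abs_of_pos hδ]; exact h1
    have h4 := disc_shift (p := x 0) (q := x 1) (h := 2 * δ) hR (by positivity)
      (by nlinarith [sq_nonneg δ]) hv
    have e0 : x 0 + a 0 + (v 0 : ℝ) = x 0 + (a 0 + v 0) := by ring
    have e1 : x 1 + a 1 + (v 1 : ℝ) = x 1 + (a 1 + v 1) := by ring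
    rw [e0, e1]
    exact h4
  exact_mod_cast h5

theorem Smc_le_cnt {a : Fin 2 → ℝ} (ha : ∀ i, |a i| ≤ 1 / 2) {R δ : ℝ} (hR : 2 * δ ≤ R) (hδ : 0 < δ) (hδ' : δ ≤ 1 / 2) :
    Smc a δ (R - 2 * δ) ≤ (cnt R a : ℝ) := by
  refine Smc_le ha hδ hδ' _ _ fun x hx h0 h1 => ?_
  have h5 : cnt (R - 2 * δ) (fun i => x i + a i) ≤ cnt R a := by
    refine Set.ncard_le_ncard ?_ (cntSet_finite1 _ _ (fun i => (ha i).trans (by norm_num)))
    intro v hv
    simp only [cntSet, mem_ofPred_eq] at hv ⊢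
    have h2 : x 0 ^ 2 ≤ δ ^ 2 := by rw [sq_le_sq, abs_of_pos hδ]; exact h0
    have h3 : x 1 ^ 2 ≤ δ ^ 2 := by rw [sq_le_sq, abs_of_pos hδ]; exact h1
    have h4 := disc_shift (p := -x 0) (q := -x 1) (h := 2 * δ) (sub_nonneg.mpr hR) (by positivity)
      (by nlinarith [sq_nonneg δ]) hv
    have e0 : -x 0 + (x 0 + a 0 + (v 0 : ℝ)) = a 0 + v 0 := by ring
    have e1 : -x 1 + (x 1 + a 1 + (v 1 : ℝ)) = a 1 + v 1 := by ring
    rw [e0, e1] at h4
    calc (a 0 + (v 0 : ℝ)) ^ 2 + (a 1 + (v 1 : ℝ)) ^ 2 ≤ (R - 2 * δ + 2 * δ) ^ 2 := h4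
      _ = R ^ 2 := by ring
  exact_mod_cast h5

/-! ### Truncation and Hardy's formula -/

/-- Truncated smoothed remainder. -/
noncomputable def PTc (a : Fin 2 → ℝ) (δ : ℝ) (T : ℕ) (R : ℝ) : ℂ :=
  ∑ k ∈ dk T, ((wt δ (k 0) * wt δ (k 1) : ℝ) : ℂ) * (ek k a * D R k)

lemma tendsto_PTc {a : Fin 2 → ℝ} (ha : ∀ i, |a i| ≤ 1 / 2) {δ R : ℝ} (hδ : 0 < δ) (hδ' : δ ≤ 1 / 2) (hR : 0 < R) :
    Tendsto (fun T => PTc a δ T R) atTop (𝓝 ((Smc a δ R - π * R ^ 2 : ℝ) : ℂ)) := by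
  have h := (smooth_hasSum_c ha hδ hδ' R).comp tendsto_dk
  have h1 : ∀ T, (∑ k ∈ insert 0 (dk T), ((wt δ (k 0) * wt δ (k 1) : ℝ) : ℂ) * (ek k a * D R k))
      = (π * R ^ 2 : ℝ) + PTc a δ T R := by
    intro T
    rw [Finset.sum_insert (zero_notMem_dk T), D_zero hR]
    simp [wt, PTc, ek]
  have h2 : Tendsto (fun T => ((π * R ^ 2 : ℝ) : ℂ) + PTc a δ T R) atTop (𝓝 ((Smc a δ R : ℝ) : ℂ)) := by
    refine h.congr fun T => ?_
    exact h1 T
  have h3 := h2.sub_const (((π * R ^ 2 : ℝ) : ℂ))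
  have h4 : ((Smc a δ R : ℝ) : ℂ) - ((π * R ^ 2 : ℝ) : ℂ) = ((Smc a δ R - π * R ^ 2 : ℝ) : ℂ) := by
    push_cast; rfl
  rw [h4] at h3
  refine h3.congr fun T => ?_
  ring

/-- The smoothed coefficient with centre. -/
noncomputable def awc (a : Fin 2 → ℝ) (δ : ℝ) (K : ℕ) : ℝ :=
  ∑ k ∈ rep2 K, wt δ (k 0) * wt δ (k 1) * Real.cos (2 * π * (k 0 * a 0 + k 1 * a 1))

lemma abs_awc_le (a : Fin 2 → ℝ) (δ : ℝ) (K : ℕ) : |awc a δ K| ≤ aw δ K := by
  unfold awc aw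
  refine (Finset.abs_sum_le_sum_abs _ _).trans (Finset.sum_le_sum fun k _ => ?_)
  have h0 : 0 ≤ wt δ (k 0) * wt δ (k 1) := mul_nonneg (wt_nonneg _ _) (wt_nonneg _ _)
  rw [abs_mul, abs_of_nonneg h0]
  exact mul_le_of_le_one_right h0 (Real.abs_cos_le_one _)

lemma wt_neg (δ : ℝ) (m : ℤ) : wt δ (-m) = wt δ m := by
  unfold wt
  simp only [neg_eq_zero, Int.cast_neg, mul_neg, Real.sin_neg, neg_div_neg_eq]

lemma sum_ek (a : Fin 2 → ℝ) (δ : ℝ) (K : ℕ) :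
    ∑ k ∈ rep2 K, ((wt δ (k 0) * wt δ (k 1) : ℝ) : ℂ) * ek k a = ((awc a δ K : ℝ) : ℂ) := by
  have h1 : ∀ k : Fin 2 → ℤ, ek k a = ((Real.cos (2 * π * (k 0 * a 0 + k 1 * a 1)) : ℝ) : ℂ) +
      ((Real.sin (2 * π * (k 0 * a 0 + k 1 * a 1)) : ℝ) : ℂ) * Complex.I := by
    intro k
    unfold ek
    have : 2 * π * Complex.I * ((k 0 : ℂ) * (a 0 : ℂ) + (k 1 : ℂ) * (a 1 : ℂ)) =
        ((2 * π * (k 0 * a 0 + k 1 * a 1) : ℝ) : ℂ) * Complex.I := by
      push_cast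
      ring
    rw [this, Complex.exp_mul_I, ← Complex.ofReal_cos, ← Complex.ofReal_sin]
  have h2 : ∑ k ∈ rep2 K, wt δ (k 0) * wt δ (k 1) * Real.sin (2 * π * (k 0 * a 0 + k 1 * a 1)) = 0 := by
    have h3 : ∑ k ∈ rep2 K, wt δ (k 0) * wt δ (k 1) * Real.sin (2 * π * (k 0 * a 0 + k 1 * a 1)) =
        ∑ k ∈ rep2 K, -(wt δ (k 0) * wt δ (k 1) * Real.sin (2 * π * (k 0 * a 0 + k 1 * a 1))) := by
      refine Finset.sum_nbij' (fun k => -k) (fun k => -k) ?_ ?_ ?_ ?_ ?_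
      · intro k hk
        rw [mem_rep2] at hk ⊢
        simpa using hk
      · intro k hk
        rw [mem_rep2] at hk ⊢
        simpa using hk
      · intro k _
        simp
      · intro k _
        simp
      · intro k _
        simp only [Pi.neg_apply, wt_neg]
        push_cast
        have : 2 * π * (-(k 0 : ℝ) * a 0 + -(k 1 : ℝ) * a 1) = -(2 * π * (k 0 * a 0 + k 1 * a 1)) := by ring
        rw [this, Real.sin_neg]
        ring
    rw [Finset.sum_neg_distrib] at h3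
    linarith
  have h3 : ∑ k ∈ rep2 K, ((wt δ (k 0) * wt δ (k 1) : ℝ) : ℂ) * ek k a =
      ((∑ k ∈ rep2 K, wt δ (k 0) * wt δ (k 1) * Real.cos (2 * π * (k 0 * a 0 + k 1 * a 1)) : ℝ) : ℂ) +
      ((∑ k ∈ rep2 K, wt δ (k 0) * wt δ (k 1) * Real.sin (2 * π * (k 0 * a 0 + k 1 * a 1)) : ℝ) : ℂ) * Complex.I := by
    rw [Complex.ofReal_sum, Complex.ofReal_sum, Finset.sum_mul, ← Finset.sum_add_distrib]
    refine Finset.sum_congr rfl fun k _ => ?_
    rw [h1]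
    push_cast
    ring
  rw [h3, h2]
  simp [awc]

/-- The truncated Hardy sum with centre. -/
noncomputable def Vc (a : Fin 2 → ℝ) (δ : ℝ) (T : ℕ) (R : ℝ) : ℂ :=
  ∑ K ∈ Finset.Icc 1 T, ((awc a δ K * (K : ℝ) ^ (-(3 / 4) : ℝ) : ℝ) : ℂ) * ee (R * √K)

/-- The truncated smoothed remainder against the truncated Hardy sum. -/
theorem PTc_approx : ∃ C : ℝ, 0 < C ∧ ∀ (a : Fin 2 → ℝ) (δ : ℝ) (T : ℕ) (R : ℝ), 0 < R →
    ‖PTc a δ T R - ((√R * (4 * (g0 * Vc a δ T R).re) : ℝ) : ℂ)‖ ≤ C / √R := by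
  obtain ⟨C1, hC1, hgr⟩ := gr_le (ε := 1 / 8) (by norm_num)
  have hsum : Summable (fun K : ℕ => C1 * (K : ℝ) ^ (-(9 / 8) : ℝ)) :=
    (Real.summable_nat_rpow.mpr (by norm_num)).mul_left C1
  refine ⟨4 * (∑' K : ℕ, C1 * (K : ℝ) ^ (-(9 / 8) : ℝ) + 1), ?_, ?_⟩
  · have : 0 ≤ ∑' K : ℕ, C1 * (K : ℝ) ^ (-(9 / 8) : ℝ) := tsum_nonneg fun K => by positivity
    positivity
  intro a δ T R hR
  have hsR : 0 < √R := Real.sqrt_pos.mpr hR
  have h1 : ((√R * (4 * (g0 * Vc a δ T R).re) : ℝ) : ℂ) = ∑ K ∈ Finset.Icc 1 T, ∑ k ∈ rep2 K,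
      ((wt δ (k 0) * wt δ (k 1) : ℝ) : ℂ) * (ek k a *
      ((√R * (4 * (g0 * (((K : ℝ) ^ (-(3 / 4) : ℝ) : ℝ) : ℂ) * ee (R * √K)).re) : ℝ) : ℂ)) := by
    have e1 : (g0 * Vc a δ T R).re = ∑ K ∈ Finset.Icc 1 T, awc a δ K *
        (g0 * (((K : ℝ) ^ (-(3 / 4) : ℝ) : ℝ) : ℂ) * ee (R * √K)).re := by
      rw [Vc, Finset.mul_sum, Complex.re_sum]
      refine Finset.sum_congr rfl fun K _ => ?_
      rw [← Complex.re_ofReal_mul]
      congr 1
      push_cast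
      ring
    have e2 : ∀ K ∈ Finset.Icc 1 T, ∑ k ∈ rep2 K,
      ((wt δ (k 0) * wt δ (k 1) : ℝ) : ℂ) * (ek k a *
      ((√R * (4 * (g0 * (((K : ℝ) ^ (-(3 / 4) : ℝ) : ℝ) : ℂ) * ee (R * √K)).re) : ℝ) : ℂ)) =
      ((√R * (4 * (awc a δ K * (g0 * (((K : ℝ) ^ (-(3 / 4) : ℝ) : ℝ) : ℂ) * ee (R * √K)).re)) : ℝ) : ℂ) := by
      intro K _
      obtain ⟨y, hy⟩ : ∃ y : ℝ, y = (g0 * (((K : ℝ) ^ (-(3 / 4) : ℝ) : ℝ) : ℂ) * ee (R * √K)).re := ⟨_, rfl⟩
      rw [← hy]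
      have e3 : ∀ k ∈ rep2 K, ((wt δ (k 0) * wt δ (k 1) : ℝ) : ℂ) * (ek k a * ((√R * (4 * y) : ℝ) : ℂ)) =
          (((wt δ (k 0) * wt δ (k 1) : ℝ) : ℂ) * ek k a) * ((√R * (4 * y) : ℝ) : ℂ) := fun k _ => by ring
      rw [Finset.sum_congr rfl e3, ← Finset.sum_mul, sum_ek]
      push_cast
      ring
    rw [Finset.sum_congr rfl e2, e1, ← Complex.ofReal_sum, Finset.mul_sum, Finset.mul_sum]
  rw [PTc, sum_dk, h1, ← Finset.sum_sub_distrib]
  refine (norm_sum_le _ _).trans ?_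
  have h2 : ∀ K ∈ Finset.Icc 1 T, ‖∑ k ∈ rep2 K, ((wt δ (k 0) * wt δ (k 1) : ℝ) : ℂ) * (ek k a * D R k) -
      ∑ k ∈ rep2 K, ((wt δ (k 0) * wt δ (k 1) : ℝ) : ℂ) * (ek k a *
      ((√R * (4 * (g0 * (((K : ℝ) ^ (-(3 / 4) : ℝ) : ℝ) : ℂ) * ee (R * √K)).re) : ℝ) : ℂ))‖
      ≤ 4 / √R * (C1 * (K : ℝ) ^ (-(9 / 8) : ℝ)) := by
    intro K hK
    rw [Finset.mem_Icc] at hK
    have hK0 : (0 : ℝ) < K := by exact_mod_cast hK.1
    rw [← Finset.sum_sub_distrib]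
    refine (norm_sum_le _ _).trans ?_
    refine (Finset.sum_le_card_nsmul _ _ (4 / √R * (K : ℝ) ^ (-(5 / 4) : ℝ)) fun k hk => ?_).trans ?_
    · rw [← mul_sub, ← mul_sub, norm_mul, norm_mul, norm_ek, one_mul, Complex.norm_real, Real.norm_of_nonneg
        (mul_nonneg (wt_nonneg _ _) (wt_nonneg _ _))]
      calc wt δ (k 0) * wt δ (k 1) * _ ≤ 1 * _ :=
            mul_le_mul_of_nonneg_right (ww_le_one δ k) (norm_nonneg _)
        _ ≤ _ := by rw [one_mul]; exact D_asymp hR hK.1 hk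
    · rw [card_rep2, nsmul_eq_mul]
      have h3 := hgr K hK.1
      calc (gr K : ℝ) * (4 / √R * (K : ℝ) ^ (-(5 / 4) : ℝ))
          ≤ (C1 * (K : ℝ) ^ (1 / 8 : ℝ)) * (4 / √R * (K : ℝ) ^ (-(5 / 4) : ℝ)) := by gcongr
        _ = 4 / √R * (C1 * ((K : ℝ) ^ (1 / 8 : ℝ) * (K : ℝ) ^ (-(5 / 4) : ℝ))) := by ring
        _ = _ := by rw [← Real.rpow_add hK0]; norm_num
  refine (Finset.sum_le_sum h2).trans ?_
  rw [← Finset.mul_sum]
  have h3 : ∑ K ∈ Finset.Icc 1 T, C1 * (K : ℝ) ^ (-(9 / 8) : ℝ)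
      ≤ ∑' K : ℕ, C1 * (K : ℝ) ^ (-(9 / 8) : ℝ) :=
    hsum.sum_le_tsum _ fun K _ => by positivity
  calc 4 / √R * ∑ K ∈ Finset.Icc 1 T, C1 * (K : ℝ) ^ (-(9 / 8) : ℝ)
      ≤ 4 / √R * (∑' K : ℕ, C1 * (K : ℝ) ^ (-(9 / 8) : ℝ) + 1) := by
        gcongr; linarith
    _ = _ := by ring

end Pool.Agent.Helper53.TM
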