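import Mathlib
import Pool.Agent.Helper53.TM.T3
import Pool.Agent.Helper53.TM.T4
import Pool.Agent.Helper22.GC.Large3

/-!
# TM-T5: the measure of the large values of the smoothed error, for every centre
-/

open MeasureTheory Set Filter
open scoped Real ComplexConjugate Topology

set_option autoImplicit false

namespace Pool.Agent.Helper53.TM

open Pool.Agent.Helper22.GC

/-- The size of the smoothed coefficients in a dyadic block. -/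
lemma coeff_le_c {ε : ℝ} (hε : 0 < ε) : ∃ A : ℝ, 0 < A ∧ ∀ (a : Fin 2 → ℝ) (δ : ℝ) (K k : ℕ), 0 < δ → 1 ≤ K →
    k ∈ Finset.Ico K (2 * K) →
    ‖((awc a δ k * (k : ℝ) ^ (-(3 / 4) : ℝ) : ℝ) : ℂ)‖
      ≤ A * ((K : ℝ) ^ (-(3 / 4) : ℝ) * (K : ℝ) ^ ε) * min 1 (1 / δ ^ 2 / K) := by
  obtain ⟨A, hA, h⟩ := coeff_le hε
  refine ⟨A, hA, fun a δ K k hδ hK hk => le_trans ?_ (h δ K k hδ hK hk)⟩
  rw [Complex.norm_real, Complex.norm_real, Real.norm_eq_abs, Real.norm_eq_abs, abs_mul, abs_mul]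
  refine mul_le_mul_of_nonneg_right ?_ (abs_nonneg _)
  exact (abs_awc_le a δ k).trans (le_abs_self _)

/-- one block -/
lemma one_block {ε : ℝ} (hε : 0 < ε) (hε' : ε ≤ 1 / 20) : ∃ C : ℝ, 0 < C ∧ ∀ (a : Fin 2 → ℝ) (δ w A B : ℝ) (j : ℕ),
    0 < δ → 0 < w → 0 ≤ A → A ≤ B →
    volume {r : ℝ | r ∈ Icc A B ∧ w * ((2 : ℝ) ^ (-ε)) ^ j ≤
        ‖∑ k ∈ Finset.Ico (2 ^ j) (2 * 2 ^ j), ((awc a δ k * (k : ℝ) ^ (-(3 / 4) : ℝ) : ℝ) : ℂ) * ee (r * √k)‖} ≤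
      ENNReal.ofReal (C * (1 / δ ^ 2) ^ (22 * ε) * ((B - A) / w ^ 10 + 1 / w ^ 2) * ((2 : ℝ) ^ (-ε)) ^ j) := by
  obtain ⟨A₀, hA₀, hcoeff⟩ := coeff_le_c hε
  obtain ⟨C₀, hC₀, hblock⟩ := block_measure
  obtain ⟨D, hD⟩ : ∃ D : ℝ, D = 140 * A₀ ^ 2 := ⟨_, rfl⟩
  have hD0 : 0 < D := by rw [hD]; positivity
  refine ⟨C₀ * (1 + 2 / ε) * (D ^ 5 + D), by positivity, ?_⟩
  intro a δ w A B j hδ hw hA hAB
  obtain ⟨p, hp⟩ : ∃ p : ℝ, p = (2 : ℝ) ^ (-ε) := ⟨_, rfl⟩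
  obtain ⟨X, hX⟩ : ∃ X : ℝ, X = 1 / δ ^ 2 := ⟨_, rfl⟩
  rw [← hp, ← hX]
  have hp0 : 0 < p := by rw [hp]; positivity
  have hX0 : 0 < X := by rw [hX]; positivity
  have hK1 : 1 ≤ 2 ^ j := Nat.one_le_two_pow
  have hKr : (((2 ^ j : ℕ)) : ℝ) = (2 : ℝ) ^ j := by push_cast; rfl
  have hK0 : (0 : ℝ) < (2 : ℝ) ^ j := by positivity
  have hKone : (1 : ℝ) ≤ (2 : ℝ) ^ j := one_le_pow₀ (by norm_num)
  obtain ⟨e, he⟩ : ∃ e : ℝ, e = ((2 : ℝ) ^ j) ^ ε := ⟨_, rfl⟩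
  obtain ⟨v, hv⟩ : ∃ v : ℝ, v = min 1 (X / (2 : ℝ) ^ j) := ⟨_, rfl⟩
  have he1 : 1 ≤ e := by
    rw [he]; exact Real.one_le_rpow hKone hε.le
  have he0 : 0 < e := by linarith
  have hv0 : 0 < v := by rw [hv]; positivity
  have hep : e * p ^ j = 1 := by
    rw [he, two_pow_rpow, hp, ← mul_pow, ← Real.rpow_add (by norm_num)]
    simp
  have hpe : p ^ j = 1 / e := by
    rw [eq_div_iff he0.ne']; linarith
  obtain ⟨W, hW⟩ : ∃ W : ℝ, W = w * p ^ j := ⟨_, rfl⟩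
  have hW0 : 0 < W := by rw [hW]; positivity
  obtain ⟨q, hq⟩ : ∃ q : ℝ, q = (W ^ 2 / (D * (e * v) ^ 2)) ^ (1 / 3 : ℝ) := ⟨_, rfl⟩
  have hq0 : 0 < q := by rw [hq]; positivity
  have hq3 : q ^ 3 = W ^ 2 / (D * (e * v) ^ 2) := by
    rw [hq, ← Real.rpow_natCast, ← Real.rpow_mul (by positivity)]
    norm_num
  obtain ⟨s, hs⟩ : ∃ s : ℝ, s = ((2 : ℝ) ^ j) ^ (1 / 4 : ℝ) := ⟨_, rfl⟩
  have hs0 : 0 < s := by rw [hs]; positivity
  have hs4 : (2 : ℝ) ^ j = s ^ 4 := by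
    rw [hs, ← Real.rpow_natCast _ 4, ← Real.rpow_mul hK0.le]
    norm_num
  have hs2 : √((2 : ℝ) ^ j) = s ^ 2 := by
    rw [hs4, show s ^ 4 = (s ^ 2) ^ 2 by ring, Real.sqrt_sq (by positivity)]
  have hs3 : ((2 : ℝ) ^ j) ^ (-(3 / 4) : ℝ) = 1 / s ^ 3 := by
    rw [hs, ← Real.rpow_natCast _ 3, ← Real.rpow_mul hK0.le, one_div, ← Real.rpow_neg hK0.le]
    norm_num
  have h1 := hblock (2 ^ j) (fun k => ((awc a δ k * (k : ℝ) ^ (-(3 / 4) : ℝ) : ℝ) : ℂ))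
    (A₀ * (((2 : ℝ) ^ j) ^ (-(3 / 4) : ℝ) * e) * v) q W A B hK1 hq0 hW0 hA hAB
    (by
      rw [hKr, hs2, hs3, hs4, hq3, hD]
      field_simp)
    (fun k hk => by
      have := hcoeff a δ (2 ^ j) k hδ hK1 hk
      rw [hKr, ← he, ← hX, ← hv] at this
      exact this)
  rw [← hW]
  refine h1.trans (ENNReal.ofReal_le_ofReal ?_)
  have hlog : 1 + Real.log (2 * ((2 ^ j : ℕ) : ℝ)) ≤ (1 + 2 / ε) * e := by
    rw [hKr]
    have h2 := Real.log_le_rpow_div (x := 2 * (2 : ℝ) ^ j) (by positivity) hε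
    have h3 : (2 * (2 : ℝ) ^ j) ^ ε ≤ 2 * e := by
      rw [Real.mul_rpow (by norm_num) hK0.le, ← he]
      refine mul_le_mul_of_nonneg_right ?_ he0.le
      calc (2 : ℝ) ^ ε ≤ (2 : ℝ) ^ (1 : ℝ) := Real.rpow_le_rpow_of_exponent_le (by norm_num) (by linarith)
        _ = 2 := Real.rpow_one 2
    have h4 : (2 * (2 : ℝ) ^ j) ^ ε / ε ≤ 2 * e / ε := div_le_div_of_nonneg_right h3 hε.le
    have h5 : 2 * e / ε = 2 / ε * e := by ring
    rw [h5] at h4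
    linarith
  have hq15 : 1 / q ^ 15 = D ^ 5 * (e ^ 20 * v ^ 10 / w ^ 10) := by
    have : q ^ 15 = (q ^ 3) ^ 5 := by ring
    rw [this, hq3, hW, hpe]
    field_simp
  have hq3' : 1 / q ^ 3 = D * (e ^ 4 * v ^ 2 / w ^ 2) := by
    rw [hq3, hW, hpe]
    field_simp
  have hmin : v ^ 2 ≤ X ^ (22 * ε) * (1 / e) ^ 22 := by
    have := min_pow_le hX0 hK0 (θ := 22 * ε) (by positivity) 2 (by norm_num; linarith)
    rw [← hv] at this
    refine this.trans (le_of_eq ?_)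
    congr 1
    rw [one_div, inv_pow, he, ← Real.rpow_natCast _ 22, ← Real.rpow_mul hK0.le,
      ← Real.rpow_neg hK0.le]
    congr 1
    push_cast; ring
  have hv1 : v ≤ 1 := by rw [hv]; exact min_le_left _ _
  have hmin10 : v ^ 10 ≤ X ^ (22 * ε) * (1 / e) ^ 22 :=
    (pow_le_pow_of_le_one hv0.le hv1 (by norm_num : 2 ≤ 10)).trans hmin
  obtain ⟨Y, hY⟩ : ∃ Y : ℝ, Y = X ^ (22 * ε) := ⟨_, rfl⟩
  have hY0 : 0 < Y := by rw [hY]; positivity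
  rw [← hY] at hmin hmin10 ⊢
  have hBA : 0 ≤ B - A := by linarith
  have t1 : e * ((B - A) / q ^ 15) ≤ D ^ 5 * (Y * ((B - A) / w ^ 10) * (1 / e)) := by
    have e1 : e * ((B - A) / q ^ 15) = D ^ 5 * ((B - A) / w ^ 10 * (e ^ 21 * v ^ 10)) := by
      rw [div_eq_mul_one_div, hq15]
      ring
    rw [e1]
    refine mul_le_mul_of_nonneg_left ?_ (by positivity)
    have e2 : Y * ((B - A) / w ^ 10) * (1 / e) = (B - A) / w ^ 10 * (Y * (1 / e)) := by ring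
    rw [e2]
    refine mul_le_mul_of_nonneg_left ?_ (div_nonneg hBA (by positivity))
    calc e ^ 21 * v ^ 10 ≤ e ^ 21 * (Y * (1 / e) ^ 22) := mul_le_mul_of_nonneg_left hmin10 (by positivity)
      _ = Y * (1 / e) := by field_simp
  have t2 : e * (1 / q ^ 3) ≤ D * (Y * (1 / w ^ 2) * (1 / e)) := by
    have e1 : e * (1 / q ^ 3) = D * (1 / w ^ 2 * (e ^ 5 * v ^ 2)) := by
      rw [hq3']
      ring
    rw [e1]
    refine mul_le_mul_of_nonneg_left ?_ hD0.le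
    have e2 : Y * (1 / w ^ 2) * (1 / e) = 1 / w ^ 2 * (Y * (1 / e)) := by ring
    rw [e2]
    refine mul_le_mul_of_nonneg_left ?_ (by positivity)
    calc e ^ 5 * v ^ 2 ≤ e ^ 5 * (Y * (1 / e) ^ 22) := mul_le_mul_of_nonneg_left hmin (by positivity)
      _ ≤ e ^ 21 * (Y * (1 / e) ^ 22) :=
          mul_le_mul_of_nonneg_right (pow_le_pow_right₀ he1 (by norm_num)) (by positivity)
      _ = Y * (1 / e) := by field_simp
  rw [hpe]
  have hZ1 : 0 ≤ Y * ((B - A) / w ^ 10) * (1 / e) := by positivity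
  have hZ2 : 0 ≤ Y * (1 / w ^ 2) * (1 / e) := by positivity
  have hD5 : 0 < D ^ 5 := by positivity
  calc C₀ * (1 + Real.log (2 * ((2 ^ j : ℕ) : ℝ))) * ((B - A) / q ^ 15 + 1 / q ^ 3)
      ≤ C₀ * ((1 + 2 / ε) * e) * ((B - A) / q ^ 15 + 1 / q ^ 3) := by
        refine mul_le_mul_of_nonneg_right (mul_le_mul_of_nonneg_left hlog (by linarith)) ?_
        have : 0 ≤ (B - A) / q ^ 15 := div_nonneg hBA (by positivity)
        positivity
    _ = C₀ * (1 + 2 / ε) * (e * ((B - A) / q ^ 15) + e * (1 / q ^ 3)) := by ring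
    _ ≤ C₀ * (1 + 2 / ε) * (D ^ 5 * (Y * ((B - A) / w ^ 10) * (1 / e)) + D * (Y * (1 / w ^ 2) * (1 / e))) := by
        refine mul_le_mul_of_nonneg_left (add_le_add t1 t2) (by positivity)
    _ ≤ C₀ * (1 + 2 / ε) * ((D ^ 5 + D) * (Y * ((B - A) / w ^ 10) * (1 / e)) +
          (D ^ 5 + D) * (Y * (1 / w ^ 2) * (1 / e))) := by
        refine mul_le_mul_of_nonneg_left (add_le_add (mul_le_mul_of_nonneg_right ?_ hZ1)
          (mul_le_mul_of_nonneg_right ?_ hZ2)) (by positivity)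
        · linarith
        · linarith
    _ = _ := by ring

/-- the large values of the smoothed error -/
theorem smooth_measure {ε : ℝ} (hε : 0 < ε) (hε' : ε ≤ 1 / 20) : ∃ C C1 : ℝ, 0 < C ∧ 0 < C1 ∧
    ∀ (a : Fin 2 → ℝ) (δ W0 A B : ℝ), (∀ i, |a i| ≤ 1 / 2) → 0 < δ → δ ≤ 1 / 2 → 0 < W0 → 0 < A → A ≤ B →
    C1 ≤ W0 * A →
    volume {r : ℝ | r ∈ Icc A B ∧ W0 * √r ≤ |Smc a δ r - π * r ^ 2|} ≤
      ENNReal.ofReal (C * (1 / δ ^ 2) ^ (22 * ε) * ((B - A) / W0 ^ 10 + 1 / W0 ^ 2)) := by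
  obtain ⟨C₀, hC₀, hblock⟩ := one_block hε hε'
  obtain ⟨C2, hC2, hPT⟩ := PTc_approx
  obtain ⟨p, hp⟩ : ∃ p : ℝ, p = (2 : ℝ) ^ (-ε) := ⟨_, rfl⟩
  have hp0 : 0 < p := by rw [hp]; positivity
  have hp1 : p < 1 := by
    rw [hp]; exact Real.rpow_lt_one_of_one_lt_of_neg (by norm_num) (by linarith)
  have h1p : 0 < 1 - p := by linarith
  refine ⟨C₀ * (2 ^ 10 / (1 - p) ^ 11), 4 * C2, by positivity, by positivity, ?_⟩
  intro a δ W0 A B ha hδ hδ' hW0 hA hAB hC1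
  obtain ⟨w, hw⟩ : ∃ w : ℝ, w = W0 / 2 * (1 - p) := ⟨_, rfl⟩
  have hw0 : 0 < w := by rw [hw]; positivity
  set c : ℕ → ℂ := fun k => ((awc a δ k * (k : ℝ) ^ (-(3 / 4) : ℝ) : ℝ) : ℂ) with hc
  set Bl : ℕ → ℝ → ℂ := fun j r => ∑ k ∈ Finset.Ico (2 ^ j) (2 * 2 ^ j), c k * ee (r * √k) with hBl
  have hcover : {r : ℝ | r ∈ Icc A B ∧ W0 * √r ≤ |Smc a δ r - π * r ^ 2|} ⊆
      ⋃ j : ℕ, {r : ℝ | r ∈ Icc A B ∧ w * p ^ j ≤ ‖Bl j r‖} := by
    rintro r ⟨hr, hlarge⟩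
    have hr0 : 0 < r := lt_of_lt_of_le hA hr.1
    have hsr : 0 < √r := Real.sqrt_pos.mpr hr0
    have hex : ∃ J : ℕ, W0 / 2 ≤ ‖Vc a δ (2 ^ J - 1) r‖ := by
      have hTt : Tendsto (fun J : ℕ => 2 ^ J - 1) atTop atTop := by
        refine tendsto_atTop_mono (f := fun J => J) (fun J => ?_) tendsto_id
        have : J < 2 ^ J := Nat.lt_two_pow_self
        omega
      have h1 := ((tendsto_PTc ha hδ hδ' hr0).comp hTt).norm
      have h2 : W0 * √r ≤ ‖((Smc a δ r - π * r ^ 2 : ℝ) : ℂ)‖ := by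
        rw [Complex.norm_real, Real.norm_eq_abs]
        exact hlarge
      have h3 : 3 / 4 * W0 * √r < ‖((Smc a δ r - π * r ^ 2 : ℝ) : ℂ)‖ := by
        have : 0 < W0 * √r := by positivity
        linarith
      have hev : ∀ᶠ J : ℕ in atTop, W0 / 2 ≤ ‖Vc a δ (2 ^ J - 1) r‖ := by
        filter_upwards [h1.eventually (lt_mem_nhds h3)] with J hJ
        have h4 := hPT a δ (2 ^ J - 1) r hr0
        have h5 : ‖PTc a δ (2 ^ J - 1) r‖ ≤ ‖((√r * (4 * (g0 * Vc a δ (2 ^ J - 1) r).re) : ℝ) : ℂ)‖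
            + C2 / √r := by
          have := norm_sub_norm_le (PTc a δ (2 ^ J - 1) r)
            (((√r * (4 * (g0 * Vc a δ (2 ^ J - 1) r).re) : ℝ) : ℂ))
          linarith
        have h6 : ‖((√r * (4 * (g0 * Vc a δ (2 ^ J - 1) r).re) : ℝ) : ℂ)‖
            ≤ √r * ‖Vc a δ (2 ^ J - 1) r‖ := by
          rw [Complex.norm_real, Real.norm_eq_abs, abs_mul, abs_of_pos hsr]
          exact mul_le_mul_of_nonneg_left (abs_four_re_le _) hsr.le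
        have h7 : C2 / √r ≤ W0 / 4 * √r := by
          rw [div_le_iff₀ hsr, mul_assoc, Real.mul_self_sqrt hr0.le]
          have : W0 * A ≤ W0 * r := mul_le_mul_of_nonneg_left hr.1 hW0.le
          linarith
        have hJ' : 3 / 4 * W0 * √r < ‖PTc a δ (2 ^ J - 1) r‖ := hJ
        have h8 : W0 / 2 * √r ≤ √r * ‖Vc a δ (2 ^ J - 1) r‖ := by linarith
        rw [mul_comm] at h8
        exact le_of_mul_le_mul_left h8 hsr
      exact hev.exists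
    obtain ⟨J, hJ⟩ := hex
    have hsplit : Vc a δ (2 ^ J - 1) r = ∑ j ∈ Finset.range J, Bl j r := by
      have hI : Finset.Icc 1 (2 ^ J - 1) = Finset.Ico 1 (2 ^ J) := by
        ext n
        rw [Finset.mem_Icc, Finset.mem_Ico]
        have : 1 ≤ 2 ^ J := Nat.one_le_two_pow
        omega
      rw [Vc, hI, dyadic_split]
    by_contra hcon
    rw [mem_iUnion, not_exists] at hcon
    have h1 : ∀ j ∈ Finset.range J, ‖Bl j r‖ ≤ w * p ^ j := by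
      intro j _
      have h2 := hcon j
      by_contra h3
      push Not at h3
      exact h2 ⟨hr, h3.le⟩
    have h2 : ‖Vc a δ (2 ^ J - 1) r‖ ≤ ∑ j ∈ Finset.range J, w * p ^ j := by
      rw [hsplit]
      exact (norm_sum_le _ _).trans (Finset.sum_le_sum h1)
    have h3 : ∑ j ∈ Finset.range J, w * p ^ j = W0 / 2 * ∑ j ∈ Finset.range J, (1 - p) * p ^ j := by
      rw [Finset.mul_sum]
      refine Finset.sum_congr rfl fun j _ => ?_
      rw [hw]; ring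
    have h4 := geom_lt hp0 hp1 J
    rw [h3] at h2
    have h6 : W0 / 2 * ∑ j ∈ Finset.range J, (1 - p) * p ^ j < W0 / 2 * 1 :=
      mul_lt_mul_of_pos_left h4 (by positivity)
    linarith
  obtain ⟨Z, hZ⟩ : ∃ Z : ℝ, Z = C₀ * (1 / δ ^ 2) ^ (22 * ε) * ((B - A) / w ^ 10 + 1 / w ^ 2) := ⟨_, rfl⟩
  have hBA : 0 ≤ B - A := by linarith
  have hZ0 : 0 ≤ Z := by rw [hZ]; positivity
  have hone : ∀ j : ℕ, volume {r : ℝ | r ∈ Icc A B ∧ w * p ^ j ≤ ‖Bl j r‖} ≤ ENNReal.ofReal (Z * p ^ j) := by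
    intro j
    have := hblock a δ w A B j hδ hw0 hA.le hAB
    rw [← hp, ← hZ] at this
    exact this
  refine (measure_mono hcover).trans ((measure_iUnion_le _).trans ((ENNReal.tsum_le_tsum hone).trans ?_))
  have hgs : Summable fun j : ℕ => Z * p ^ j := (summable_geometric_of_lt_one hp0.le hp1).mul_left Z
  rw [← ENNReal.ofReal_tsum_of_nonneg (fun j => by positivity) hgs, tsum_mul_left, tsum_geometric_of_lt_one hp0.le hp1]
  refine ENNReal.ofReal_le_ofReal ?_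
  rw [hZ]
  obtain ⟨Y, hY⟩ : ∃ Y : ℝ, Y = (1 / δ ^ 2) ^ (22 * ε) := ⟨_, rfl⟩
  have hY0 : 0 < Y := by rw [hY]; positivity
  rw [← hY]
  have hw10 : (B - A) / w ^ 10 = 2 ^ 10 / (1 - p) ^ 10 * ((B - A) / W0 ^ 10) := by
    rw [hw]; field_simp
  have hw2 : 1 / w ^ 2 ≤ 2 ^ 10 / (1 - p) ^ 10 * (1 / W0 ^ 2) := by
    have e1 : 1 / w ^ 2 = 4 / (1 - p) ^ 2 * (1 / W0 ^ 2) := by
      rw [hw]; field_simp; norm_num
    rw [e1]
    refine mul_le_mul_of_nonneg_right ?_ (by positivity)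
    rw [div_le_div_iff₀ (by positivity) (by positivity)]
    have : (1 - p) ^ 10 ≤ (1 - p) ^ 2 := pow_le_pow_of_le_one h1p.le (by linarith) (by norm_num)
    have h2 : 0 < (1 - p) ^ 2 := by positivity
    linarith
  calc C₀ * Y * ((B - A) / w ^ 10 + 1 / w ^ 2) * (1 - p)⁻¹
      ≤ C₀ * Y * (2 ^ 10 / (1 - p) ^ 10 * ((B - A) / W0 ^ 10) + 2 ^ 10 / (1 - p) ^ 10 * (1 / W0 ^ 2)) * (1 - p)⁻¹ := by
        refine mul_le_mul_of_nonneg_right (mul_le_mul_of_nonneg_left (add_le_add hw10.le hw2) (by positivity))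
          (by positivity)
    _ = _ := by field_simp

end Pool.Agent.Helper53.TM
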