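import Mathlib
import Pool.Agent.Helper53.TM.T5
import Pool.Agent.Helper92.GC.D1

/-!
# TM-T6: the measure of the large values of the error, for every centre
-/

open MeasureTheory Set Filter
open scoped Real ComplexConjugate Topology

set_option autoImplicit false

namespace Pool.Agent.Helper53.TM

open Pool.Agent.Helper22.GC
open Pool.Agent.Helper92.GC (dcnt)

/-- one of the two smoothed errors is large -/
lemma one_of_two_c {a : Fin 2 → ℝ} (ha : ∀ i, |a i| ≤ 1 / 2) {X R U δ : ℝ} (hX : 1 ≤ X) (hR : R ∈ Icc X (2 * X))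
    (hU : 1 ≤ U) (hUX : U ≤ √X) (hδ : δ = U / (80 * √X)) (h : U * √X ≤ |(cnt R a : ℝ) - π * R ^ 2|) :
    (R + 2 * δ ∈ Icc (X / 2) (3 * X) ∧ U / 4 * √(R + 2 * δ) ≤ |Smc a δ (R + 2 * δ) - π * (R + 2 * δ) ^ 2|) ∨
    (R - 2 * δ ∈ Icc (X / 2) (3 * X) ∧ U / 4 * √(R - 2 * δ) ≤ |Smc a δ (R - 2 * δ) - π * (R - 2 * δ) ^ 2|) := by
  have hX0 : 0 < X := by linarith
  have hsX : 0 < √X := Real.sqrt_pos.2 hX0
  have hsX2 : √X * √X = X := Real.mul_self_sqrt hX0.le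
  have hU0 : 0 < U := by linarith
  have hδ0 : 0 < δ := by rw [hδ]; positivity
  have hδ1 : δ ≤ 1 / 80 := by
    rw [hδ, div_le_div_iff₀ (by positivity) (by norm_num)]
    linarith
  have hδX : X * δ = U * √X / 80 := by
    rw [hδ]
    field_simp
    nlinarith
  have hR1 : X ≤ R := hR.1
  have hR2 : R ≤ 2 * X := hR.2
  have hRδ : R * δ ≤ 2 * (X * δ) := by
    have := mul_le_mul_of_nonneg_right hR2 hδ0.le
    linarith
  have hRδ0 : 0 ≤ R * δ := mul_nonneg (by linarith) hδ0.le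
  have hδδ : δ ^ 2 ≤ X * δ := by
    rw [pow_two]
    exact mul_le_mul_of_nonneg_right (by linarith) hδ0.le
  have hδ2 : 4 * δ ^ 2 ≤ 2 * (X * δ) := by
    have h1 : δ ^ 2 ≤ 1 / 80 * δ := by
      rw [pow_two]
      exact mul_le_mul_of_nonneg_right hδ1 hδ0.le
    have h2 : δ ≤ X * δ := le_mul_of_one_le_left hδ0.le hX
    linarith
  have hXδ0 : 0 ≤ X * δ := by positivity
  have hpi : π ≤ 4 := Real.pi_le_four
  have hpi0 : 0 < π := Real.pi_pos
  have hsq : ∀ r : ℝ, r ≤ 3 * X → U / 4 * √r ≤ U * √X / 2 := by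
    intro r hr
    have h1 : √r ≤ 2 * √X := by
      rw [Real.sqrt_le_left (by positivity), mul_pow, Real.sq_sqrt hX0.le]
      linarith
    calc U / 4 * √r ≤ U / 4 * (2 * √X) := mul_le_mul_of_nonneg_left h1 (by positivity)
      _ = U * √X / 2 := by ring
  have hmain : π * (4 * (R * δ) + 4 * δ ^ 2) ≤ U * √X / 2 := by
    calc π * (4 * (R * δ) + 4 * δ ^ 2) ≤ 4 * (10 * (X * δ)) := by
          refine mul_le_mul hpi (by linarith) (by positivity) (by norm_num)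
      _ = U * √X / 2 := by rw [hδX]; ring
  rcases le_abs.1 h with h1 | h1
  · left
    have h3 : R + 2 * δ ≤ 3 * X := by linarith
    refine ⟨⟨by linarith, h3⟩, (hsq _ h3).trans ?_⟩
    have h4 := cnt_le_Smc ha (by linarith : (0 : ℝ) ≤ R) hδ0 (by linarith)
    refine le_trans ?_ (le_abs_self _)
    have e1 : π * (R + 2 * δ) ^ 2 = π * R ^ 2 + π * (4 * (R * δ) + 4 * δ ^ 2) := by ring
    rw [e1]
    linarith
  · right
    have h3 : R - 2 * δ ≤ 3 * X := by linarith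
    refine ⟨⟨by linarith, h3⟩, (hsq _ h3).trans ?_⟩
    have h4 := Smc_le_cnt ha (by linarith : 2 * δ ≤ R) hδ0 (by linarith)
    refine le_trans ?_ (neg_le_abs _)
    have e1 : π * (R - 2 * δ) ^ 2 = π * R ^ 2 - π * (4 * (R * δ) - 4 * δ ^ 2) := by ring
    have e2 : π * (4 * (R * δ) - 4 * δ ^ 2) ≤ π * (4 * (R * δ) + 4 * δ ^ 2) :=
      mul_le_mul_of_nonneg_left (by nlinarith) hpi0.le
    rw [e1]
    linarith

/-- the large values of the error, centre in the unit square -/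
theorem err_measure {ε : ℝ} (hε : 0 < ε) (hε' : ε ≤ 1 / 20) : ∃ C X₀ : ℝ, 0 < C ∧ 1 ≤ X₀ ∧
    ∀ (a : Fin 2 → ℝ), (∀ i, |a i| ≤ 1 / 2) → ∀ X U : ℝ, X₀ ≤ X → 1 ≤ U → U ≤ √X →
    volume {R : ℝ | R ∈ Icc X (2 * X) ∧ U * √X ≤ |(cnt R a : ℝ) - π * R ^ 2|} ≤
      ENNReal.ofReal (C * X ^ (22 * ε) * (X / U ^ 10 + 1 / U ^ 2)) := by
  obtain ⟨C, C1, hC, hC1, hmain⟩ := smooth_measure hε hε'
  refine ⟨2 * (C * (6400 ^ 2 * (3 * 4 ^ 10))), max 1 (8 * C1), by positivity, le_max_left _ _, ?_⟩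
  intro a ha X U hX hU hUX
  have hX1 : 1 ≤ X := (le_max_left _ _).trans hX
  have hXC : 8 * C1 ≤ X := (le_max_right _ _).trans hX
  have hX0 : 0 < X := by linarith
  have hsX : 0 < √X := Real.sqrt_pos.2 hX0
  have hU0 : 0 < U := by linarith
  obtain ⟨δ, hδ⟩ : ∃ δ : ℝ, δ = U / (80 * √X) := ⟨_, rfl⟩
  have hδ0 : 0 < δ := by rw [hδ]; positivity
  have hδ1 : δ ≤ 1 / 80 := by
    rw [hδ, div_le_div_iff₀ (by positivity) (by norm_num)]
    linarith
  obtain ⟨S, hS⟩ : ∃ S : Set ℝ, S = {r : ℝ | r ∈ Icc (X / 2) (3 * X) ∧ U / 4 * √r ≤ |Smc a δ r - π * r ^ 2|} :=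
    ⟨_, rfl⟩
  have hvol : volume S ≤ ENNReal.ofReal (C * (1 / δ ^ 2) ^ (22 * ε) * ((3 * X - X / 2) / (U / 4) ^ 10 + 1 / (U / 4) ^ 2)) := by
    rw [hS]
    refine hmain a δ (U / 4) (X / 2) (3 * X) ha hδ0 (by linarith) (by positivity) (by positivity) (by linarith) ?_
    have : 1 / 4 * (X / 2) ≤ U / 4 * (X / 2) := mul_le_mul_of_nonneg_right (by linarith) (by positivity)
    linarith
  have hcov : {R : ℝ | R ∈ Icc X (2 * X) ∧ U * √X ≤ |(cnt R a : ℝ) - π * R ^ 2|} ⊆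
      ((fun R => R + 2 * δ) ⁻¹' S) ∪ ((fun R => R + (-(2 * δ))) ⁻¹' S) := by
    rintro R ⟨hR, hl⟩
    rcases one_of_two_c ha hX1 hR hU hUX hδ hl with h1 | h1
    · left
      rw [mem_preimage, hS]
      exact h1
    · right
      rw [mem_preimage, hS, ← sub_eq_add_neg]
      exact h1
  refine (measure_mono hcov).trans ((measure_union_le _ _).trans ?_)
  rw [measure_preimage_add_right, measure_preimage_add_right, ← two_mul]
  refine (mul_le_mul_right hvol 2).trans ?_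
  rw [show (2 : ENNReal) = ENNReal.ofReal 2 by norm_num, ← ENNReal.ofReal_mul (by norm_num)]
  refine ENNReal.ofReal_le_ofReal ?_
  have hY : (1 / δ ^ 2) ^ (22 * ε) ≤ 6400 ^ 2 * X ^ (22 * ε) := by
    have e1 : 1 / δ ^ 2 ≤ 6400 * X := by
      have e2 : 1 / δ ^ 2 = 6400 * X / U ^ 2 := by
        rw [hδ, div_pow, mul_pow, Real.sq_sqrt hX0.le]
        field_simp
        norm_num
      rw [e2]
      exact div_le_self (by positivity) (one_le_pow₀ hU)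
    calc (1 / δ ^ 2) ^ (22 * ε) ≤ (6400 * X) ^ (22 * ε) := Real.rpow_le_rpow (by positivity) e1 (by positivity)
      _ = (6400 : ℝ) ^ (22 * ε) * X ^ (22 * ε) := Real.mul_rpow (by norm_num) hX0.le
      _ ≤ (6400 : ℝ) ^ (2 : ℝ) * X ^ (22 * ε) := by
          refine mul_le_mul_of_nonneg_right ?_ (by positivity)
          exact Real.rpow_le_rpow_of_exponent_le (by norm_num) (by linarith)
      _ = 6400 ^ 2 * X ^ (22 * ε) := by rw [Real.rpow_two]
  have hb : (3 * X - X / 2) / (U / 4) ^ 10 + 1 / (U / 4) ^ 2 ≤ 3 * 4 ^ 10 * (X / U ^ 10 + 1 / U ^ 2) := by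
    have e1 : (3 * X - X / 2) / (U / 4) ^ 10 = 5 / 2 * 4 ^ 10 * (X / U ^ 10) := by
      field_simp
      ring
    have e2 : 1 / (U / 4) ^ 2 = 4 ^ 2 * (1 / U ^ 2) := by
      field_simp
    rw [e1, e2, mul_add]
    have h1 : 0 ≤ X / U ^ 10 := by positivity
    have h2 : 0 ≤ 1 / U ^ 2 := by positivity
    refine add_le_add (mul_le_mul_of_nonneg_right ?_ h1) (mul_le_mul_of_nonneg_right ?_ h2)
    · norm_num
    · norm_num
  calc 2 * (C * (1 / δ ^ 2) ^ (22 * ε) * ((3 * X - X / 2) / (U / 4) ^ 10 + 1 / (U / 4) ^ 2))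
      ≤ 2 * (C * (6400 ^ 2 * X ^ (22 * ε)) * (3 * 4 ^ 10 * (X / U ^ 10 + 1 / U ^ 2))) := by
        refine mul_le_mul_of_nonneg_left ?_ (by norm_num)
        refine mul_le_mul (mul_le_mul_of_nonneg_left hY hC.le) hb ?_ (by positivity)
        have : 0 ≤ 3 * X - X / 2 := by linarith
        positivity
    _ = _ := by ring

/-- reduction of the centre -/
lemma dcnt_cnt (c : ℝ × ℝ) : ∃ a : Fin 2 → ℝ, (∀ i, |a i| ≤ 1 / 2) ∧ ∀ R : ℝ, dcnt c R = (cnt R a : ℝ) := by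
  refine ⟨![round c.1 - c.1, round c.2 - c.2], ?_, ?_⟩
  · intro i
    fin_cases i
    · show |(round c.1 : ℝ) - c.1| ≤ 1 / 2
      rw [abs_sub_comm]
      exact abs_sub_round c.1
    · show |(round c.2 : ℝ) - c.2| ≤ 1 / 2
      rw [abs_sub_comm]
      exact abs_sub_round c.2
  · intro R
    unfold dcnt cnt cntSet
    congr 1
    rw [← Nat.card_coe_set_eq]
    refine Nat.card_congr ⟨fun k => ⟨![k.1.1 - round c.1, k.1.2 - round c.2], ?_⟩,
      fun v => ⟨(v.1 0 + round c.1, v.1 1 + round c.2), ?_⟩, ?_, ?_⟩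
    · have h := k.2
      show ((round c.1 : ℝ) - c.1 + ((k.1.1 - round c.1 : ℤ) : ℝ)) ^ 2 +
        ((round c.2 : ℝ) - c.2 + ((k.1.2 - round c.2 : ℤ) : ℝ)) ^ 2 ≤ R ^ 2
      push_cast
      have e1 : (round c.1 : ℝ) - c.1 + ((k.1.1 : ℝ) - round c.1) = (k.1.1 : ℝ) - c.1 := by ring
      have e2 : (round c.2 : ℝ) - c.2 + ((k.1.2 : ℝ) - round c.2) = (k.1.2 : ℝ) - c.2 := by ring
      rw [e1, e2]
      exact h
    · have h : ((round c.1 : ℝ) - c.1 + (v.1 0 : ℝ)) ^ 2 + ((round c.2 : ℝ) - c.2 + (v.1 1 : ℝ)) ^ 2 ≤ R ^ 2 := v.2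
      show (((v.1 0 + round c.1 : ℤ) : ℝ) - c.1) ^ 2 + (((v.1 1 + round c.2 : ℤ) : ℝ) - c.2) ^ 2 ≤ R ^ 2
      push_cast
      have e1 : (v.1 0 : ℝ) + round c.1 - c.1 = round c.1 - c.1 + v.1 0 := by ring
      have e2 : (v.1 1 : ℝ) + round c.2 - c.2 = round c.2 - c.2 + v.1 1 := by ring
      rw [e1, e2]
      exact h
    · intro k
      apply Subtype.ext
      apply Prod.ext
      · simp
      · simp
    · intro v
      apply Subtype.ext
      funext i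
      fin_cases i
      · simp
      · simp

/-- **the large values of the error, every centre** -/
theorem disc_measure {ε : ℝ} (hε : 0 < ε) (hε' : ε ≤ 1 / 20) : ∃ C X₀ : ℝ, 0 < C ∧ 1 ≤ X₀ ∧
    ∀ c : ℝ × ℝ, ∀ X U : ℝ, X₀ ≤ X → 1 ≤ U → U ≤ √X →
    volume {R : ℝ | R ∈ Icc X (2 * X) ∧ U * √X ≤ |dcnt c R - π * R ^ 2|} ≤
      ENNReal.ofReal (C * X ^ (22 * ε) * (X / U ^ 10 + 1 / U ^ 2)) := by
  obtain ⟨C, X₀, hC, hX₀, h⟩ := err_measure hε hε'
  refine ⟨C, X₀, hC, hX₀, fun c X U hX hU hUX => ?_⟩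
  obtain ⟨a, ha, hca⟩ := dcnt_cnt c
  simp only [hca]
  exact h a ha X U hX hU hUX

end Pool.Agent.Helper53.TM
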