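import Mathlib
import Pool.Agent.Helper53.TM.T6

/-!
# TM-T7: the tenth moment of the error, for every centre, from a pointwise bound with an exponent below `5/8`
-/

open MeasureTheory Set Filter
open scoped Real ComplexConjugate Topology

set_option autoImplicit false

namespace Pool.Agent.Helper53.TM

open Pool.Agent.Helper92.GC (dcnt dcnt_bdd)

/-- the error -/
noncomputable def er (c : ℝ × ℝ) (R : ℝ) : ℝ := |dcnt c R - π * R ^ 2|

lemma er_nonneg (c : ℝ × ℝ) (R : ℝ) : 0 ≤ er c R := abs_nonneg _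

/-- a pointwise bound by levels -/
lemma level_bound {f X : ℝ} (hf : 0 ≤ f) (hX : 0 < X) (J : ℕ) (hJ : f < 2 ^ J * √X) :
    f ^ 10 ≤ X ^ 5 + ∑ j ∈ Finset.range J, if (2 : ℝ) ^ j * √X ≤ f then (2 ^ (j + 1) * √X) ^ 10 else 0 := by
  have hsX : 0 < √X := Real.sqrt_pos.2 hX
  have hs10 : √X ^ 10 = X ^ 5 := by
    calc √X ^ 10 = (√X ^ 2) ^ 5 := by ring
      _ = X ^ 5 := by rw [Real.sq_sqrt hX.le]
  induction J with
  | zero =>
    simp only [pow_zero, one_mul] at hJ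
    simp only [Finset.range_zero, Finset.sum_empty, add_zero]
    rw [← hs10]
    exact pow_le_pow_left₀ hf hJ.le 10
  | succ J ih =>
    rw [Finset.sum_range_succ]
    rcases lt_or_ge f (2 ^ J * √X) with h | h
    · have := ih h
      rw [if_neg (not_le.2 h)]
      linarith
    · rw [if_pos h]
      have h1 : f ^ 10 ≤ (2 ^ (J + 1) * √X) ^ 10 := pow_le_pow_left₀ hf hJ.le 10
      have h2 : 0 ≤ ∑ j ∈ Finset.range J, if (2 : ℝ) ^ j * √X ≤ f then (2 ^ (j + 1) * √X) ^ 10 else 0 := by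
        refine Finset.sum_nonneg fun j _ => ?_
        split_ifs
        · positivity
        · exact le_rfl
      have h3 : 0 ≤ X ^ 5 := by positivity
      linarith

/-- the tenth moment over a dyadic interval -/
theorem dyadic_moment {κ : ℝ} (hκ0 : 1 / 2 ≤ κ) (hκ : κ < 5 / 8)
    (hsup : ∃ C : ℝ, ∀ R : ℝ, 1 ≤ R → ∀ c : ℝ × ℝ, |dcnt c R - π * R ^ 2| ≤ C * R ^ κ)
    {ε : ℝ} (hε : 0 < ε) : ∃ C X₀ : ℝ, 0 < C ∧ 1 ≤ X₀ ∧ ∀ c : ℝ × ℝ, ∀ X : ℝ, X₀ ≤ X →
    ∫⁻ R in Icc X (2 * X), ENNReal.ofReal (er c R ^ 10) ≤ ENNReal.ofReal (C * X ^ (6 + ε)) := by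
  obtain ⟨C₁, hC₁⟩ := hsup
  obtain ⟨η, hη⟩ : ∃ η : ℝ, η = min (ε / 44) (1 / 20) := ⟨_, rfl⟩
  have hη0 : 0 < η := by rw [hη]; positivity
  have hη1 : 22 * η ≤ ε / 2 := by
    have : η ≤ ε / 44 := hη ▸ min_le_left _ _
    linarith
  have hη2 : η ≤ 1 / 20 := hη ▸ min_le_right _ _
  obtain ⟨C₀, X₁, hC₀, hX₁, hmeas⟩ := disc_measure hη0 hη2
  -- the sup in the form `er ≤ M √X`
  obtain ⟨C₂, hC₂⟩ : ∃ C₂ : ℝ, C₂ = |C₁| * 2 + 1 := ⟨_, rfl⟩
  have hC₂1 : 1 ≤ C₂ := by rw [hC₂]; linarith [abs_nonneg C₁]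
  refine ⟨1 + 2 ^ 10 * (C₀ * ((2 / ε * (2 * C₂) ^ (ε / 2) * 2) + (2 * C₂) ^ 8)), max X₁ (C₂ ^ 3), by positivity,
    hX₁.trans (le_max_left _ _), ?_⟩
  intro c X hX
  have hXX₁ : X₁ ≤ X := (le_max_left _ _).trans hX
  have hX1 : 1 ≤ X := hX₁.trans hXX₁
  have hX0 : 0 < X := by linarith
  have hsX : 0 < √X := Real.sqrt_pos.2 hX0
  have hXC : C₂ ^ 3 ≤ X := (le_max_right _ _).trans hX
  obtain ⟨M, hM⟩ : ∃ M : ℝ, M = C₂ * X ^ (κ - 1 / 2) := ⟨_, rfl⟩
  have hXκ : 1 ≤ X ^ (κ - 1 / 2) := Real.one_le_rpow hX1 (by linarith)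
  have hM1 : 1 ≤ M := by rw [hM]; exact one_le_mul_of_one_le_of_one_le hC₂1 hXκ
  have hM0 : 0 < M := by linarith
  have hMX : M ^ 8 ≤ C₂ ^ 8 * X := by
    rw [hM, mul_pow]
    refine mul_le_mul_of_nonneg_left ?_ (by positivity)
    rw [← Real.rpow_natCast, ← Real.rpow_mul hX0.le]
    calc X ^ ((κ - 1 / 2) * ((8 : ℕ) : ℝ)) ≤ X ^ (1 : ℝ) := by
          apply Real.rpow_le_rpow_of_exponent_le hX1
          push_cast
          linarith
      _ = X := Real.rpow_one X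
  have hMs : M ≤ √X := by
    have h1 : X ^ (κ - 1 / 2) ≤ X ^ (1 / 8 : ℝ) := Real.rpow_le_rpow_of_exponent_le hX1 (by linarith)
    have h2 : C₂ ≤ X ^ (1 / 3 : ℝ) := by
      have h3 : (C₂ ^ 3) ^ (1 / 3 : ℝ) = C₂ := by
        rw [← Real.rpow_natCast, ← Real.rpow_mul (by linarith)]
        norm_num
      rw [← h3]
      exact Real.rpow_le_rpow (by positivity) hXC (by norm_num)
    rw [hM]
    calc C₂ * X ^ (κ - 1 / 2) ≤ X ^ (1 / 3 : ℝ) * X ^ (1 / 8 : ℝ) :=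
          mul_le_mul h2 h1 (by positivity) (by positivity)
      _ = X ^ (1 / 3 + 1 / 8 : ℝ) := by rw [← Real.rpow_add hX0]
      _ ≤ X ^ (1 / 2 : ℝ) := Real.rpow_le_rpow_of_exponent_le hX1 (by norm_num)
      _ = √X := by rw [Real.sqrt_eq_rpow]
  have hsupX : ∀ R ∈ Icc X (2 * X), er c R < M * √X := by
    intro R hR
    have hR1 : 1 ≤ R := hX1.trans hR.1
    have h1 := hC₁ R hR1 c
    have h2 : R ^ κ ≤ 2 * (X ^ (κ - 1 / 2) * √X) := by
      calc R ^ κ ≤ (2 * X) ^ κ := Real.rpow_le_rpow (by linarith) hR.2 (by linarith)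
        _ = (2 : ℝ) ^ κ * X ^ κ := Real.mul_rpow (by norm_num) hX0.le
        _ ≤ 2 * X ^ κ := by
            refine mul_le_mul_of_nonneg_right ?_ (by positivity)
            calc (2 : ℝ) ^ κ ≤ (2 : ℝ) ^ (1 : ℝ) := Real.rpow_le_rpow_of_exponent_le (by norm_num) (by linarith)
              _ = 2 := Real.rpow_one 2
        _ = 2 * (X ^ (κ - 1 / 2) * √X) := by
            rw [Real.sqrt_eq_rpow, ← Real.rpow_add hX0]
            congr 2
            ring
    have h3 : C₁ * R ^ κ ≤ |C₁| * (2 * (X ^ (κ - 1 / 2) * √X)) := by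
      refine (mul_le_mul_of_nonneg_right (le_abs_self C₁) (by positivity)).trans ?_
      exact mul_le_mul_of_nonneg_left h2 (abs_nonneg _)
    have h4 : 0 < X ^ (κ - 1 / 2) * √X := by positivity
    unfold er
    calc |dcnt c R - π * R ^ 2| ≤ |C₁| * (2 * (X ^ (κ - 1 / 2) * √X)) := h1.trans h3
      _ < (|C₁| * 2 + 1) * (X ^ (κ - 1 / 2) * √X) := by linarith
      _ = M * √X := by rw [hM, hC₂]; ring
  -- the number of levels
  obtain ⟨J, hJ⟩ : ∃ J : ℕ, J = Nat.log 2 ⌊M⌋₊ + 1 := ⟨_, rfl⟩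
  have hfl : 1 ≤ ⌊M⌋₊ := Nat.le_floor (by simpa using hM1)
  have hJ1 : M < 2 ^ J := by
    have h1 : ⌊M⌋₊ < 2 ^ J := by rw [hJ]; exact Nat.lt_pow_succ_log_self (by norm_num) _
    have h2 : ⌊M⌋₊ + 1 ≤ 2 ^ J := h1
    have h3 : ((⌊M⌋₊ + 1 : ℕ) : ℝ) ≤ ((2 ^ J : ℕ) : ℝ) := by exact_mod_cast h2
    push_cast at h3
    linarith [Nat.lt_floor_add_one M]
  have hJ2 : (2 : ℝ) ^ J ≤ 2 * M := by
    have h1 : 2 ^ (Nat.log 2 ⌊M⌋₊) ≤ ⌊M⌋₊ := Nat.pow_log_le_self 2 (by omega)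
    have h2 : ((2 ^ (Nat.log 2 ⌊M⌋₊) : ℕ) : ℝ) ≤ (⌊M⌋₊ : ℝ) := by exact_mod_cast h1
    push_cast at h2
    have h3 := Nat.floor_le hM0.le
    rw [hJ, pow_succ]
    linarith
  have hjM : ∀ j < J, (2 : ℝ) ^ j ≤ M := by
    intro j hj
    have h1 : (2 : ℝ) ^ (j + 1) ≤ 2 ^ J := pow_le_pow_right₀ (by norm_num) hj
    rw [pow_succ] at h1
    linarith
  have hJn : (J : ℝ) ≤ 2 / ε * (2 * C₂) ^ (ε / 2) * 2 * X ^ (ε / 2) := by
    have h1 : (J : ℝ) * Real.log 2 = Real.log ((2 : ℝ) ^ J) := by rw [Real.log_pow]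
    have h2 := Real.log_le_rpow_div (x := (2 : ℝ) ^ J) (by positivity) (half_pos hε)
    have h3 : ((2 : ℝ) ^ J) ^ (ε / 2) ≤ (2 * C₂ * X) ^ (ε / 2) := by
      refine Real.rpow_le_rpow (by positivity) (hJ2.trans ?_) (by positivity)
      rw [hM, mul_assoc]
      refine mul_le_mul_of_nonneg_left (mul_le_mul_of_nonneg_left ?_ (by linarith)) (by norm_num)
      calc X ^ (κ - 1 / 2) ≤ X ^ (1 : ℝ) := Real.rpow_le_rpow_of_exponent_le hX1 (by linarith)
        _ = X := Real.rpow_one X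
    rw [Real.mul_rpow (by positivity) hX0.le] at h3
    have h4 : (1 : ℝ) / 2 ≤ Real.log 2 := by linarith [Real.log_two_gt_d9]
    have h5 : (J : ℝ) * (1 / 2) ≤ (J : ℝ) * Real.log 2 := mul_le_mul_of_nonneg_left h4 (Nat.cast_nonneg _)
    have h6 : ((2 : ℝ) ^ J) ^ (ε / 2) / (ε / 2) ≤ ((2 * C₂) ^ (ε / 2) * X ^ (ε / 2)) / (ε / 2) :=
      div_le_div_of_nonneg_right h3 (by positivity)
    have e1 : ((2 * C₂) ^ (ε / 2) * X ^ (ε / 2)) / (ε / 2) = 2 / ε * (2 * C₂) ^ (ε / 2) * X ^ (ε / 2) := by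
      field_simp
    rw [e1] at h6
    linarith
  -- the sets
  obtain ⟨L, hL⟩ : ∃ L : ℕ → Set ℝ, L = fun j => {R : ℝ | R ∈ Icc X (2 * X) ∧ (2 : ℝ) ^ j * √X ≤ er c R} := ⟨_, rfl⟩
  obtain ⟨V, hV⟩ : ∃ V : ℕ → Set ℝ, V = fun j => toMeasurable volume (L j) := ⟨_, rfl⟩
  have hVm : ∀ j, MeasurableSet (V j) := fun j => by rw [hV]; exact measurableSet_toMeasurable _ _
  obtain ⟨d, hd⟩ : ∃ d : ℕ → ℝ, d = fun j => ((2 : ℝ) ^ (j + 1) * √X) ^ 10 := ⟨_, rfl⟩
  have hd0 : ∀ j, 0 ≤ d j := fun j => by rw [hd]; positivity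
  have hpt : ∀ R ∈ Icc X (2 * X), ENNReal.ofReal (er c R ^ 10) ≤
      ENNReal.ofReal (X ^ 5) + ∑ j ∈ Finset.range J, (V j).indicator (fun _ => ENNReal.ofReal (d j)) R := by
    intro R hR
    have h1 : er c R < 2 ^ J * √X := (hsupX R hR).trans (mul_lt_mul_of_pos_right hJ1 hsX)
    have h2 := level_bound (er_nonneg c R) hX0 J h1
    refine (ENNReal.ofReal_le_ofReal h2).trans ?_
    have h0 : ∀ j ∈ Finset.range J, 0 ≤ (if (2 : ℝ) ^ j * √X ≤ er c R then (2 ^ (j + 1) * √X) ^ 10 else 0) := by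
      intro j _
      split_ifs
      · positivity
      · exact le_rfl
    rw [ENNReal.ofReal_add (by positivity) (Finset.sum_nonneg h0), ENNReal.ofReal_sum_of_nonneg h0]
    refine add_le_add le_rfl (Finset.sum_le_sum fun j _ => ?_)
    split_ifs with h3
    · have h4 : R ∈ V j := by
        rw [hV]
        refine subset_toMeasurable _ _ ?_
        rw [hL]
        exact ⟨hR, h3⟩
      rw [indicator_of_mem h4, hd]
    · rw [ENNReal.ofReal_zero]
      exact zero_le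
  have hvol : ∀ j ∈ Finset.range J, volume (V j) ≤ ENNReal.ofReal (C₀ * X ^ (22 * η) * (X / (2 ^ j) ^ 10 + 1 / (2 ^ j) ^ 2)) := by
    intro j hj
    rw [Finset.mem_range] at hj
    rw [hV]
    simp only
    rw [measure_toMeasurable, hL]
    exact hmeas c X (2 ^ j) hXX₁ (one_le_pow₀ (by norm_num)) ((hjM j hj).trans hMs)
  calc ∫⁻ R in Icc X (2 * X), ENNReal.ofReal (er c R ^ 10)
      ≤ ∫⁻ R in Icc X (2 * X), (ENNReal.ofReal (X ^ 5) +
          ∑ j ∈ Finset.range J, (V j).indicator (fun _ => ENNReal.ofReal (d j)) R) :=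
        setLIntegral_mono' measurableSet_Icc hpt
    _ ≤ ENNReal.ofReal (X ^ 5) * ENNReal.ofReal X +
          ∑ j ∈ Finset.range J, ENNReal.ofReal (d j) * volume (V j) := by
        rw [lintegral_add_left measurable_const, lintegral_const, Measure.restrict_apply_univ, Real.volume_Icc,
          lintegral_finset_sum _ (fun j _ => measurable_const.indicator (hVm j))]
        have e1 : 2 * X - X = X := by ring
        rw [e1]
        refine add_le_add le_rfl (Finset.sum_le_sum fun j _ => ?_)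
        refine (lintegral_indicator_const_le _ _).trans ?_
        gcongr
        exact Measure.restrict_le_self
    _ ≤ ENNReal.ofReal (X ^ 6) + ∑ j ∈ Finset.range J,
          ENNReal.ofReal (2 ^ 10 * X ^ 5 * (C₀ * X ^ (22 * η)) * (X + (2 ^ j) ^ 8)) := by
        refine add_le_add ?_ (Finset.sum_le_sum fun j hj => ?_)
        · rw [← ENNReal.ofReal_mul (by positivity)]
          refine le_of_eq ?_
          congr 1
        · refine (mul_le_mul_right (hvol j hj) _).trans ?_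
          rw [← ENNReal.ofReal_mul (hd0 j)]
          refine ENNReal.ofReal_le_ofReal (le_of_eq ?_)
          rw [hd]
          simp only
          have e2 : √X ^ 10 = X ^ 5 := by
            calc √X ^ 10 = (√X ^ 2) ^ 5 := by ring
              _ = X ^ 5 := by rw [Real.sq_sqrt hX0.le]
          rw [mul_pow, e2, pow_succ (2 : ℝ) j]
          field_simp
    _ ≤ ENNReal.ofReal ((1 + 2 ^ 10 * (C₀ * ((2 / ε * (2 * C₂) ^ (ε / 2) * 2) + (2 * C₂) ^ 8))) * X ^ (6 + ε)) := by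
        rw [← ENNReal.ofReal_sum_of_nonneg (fun j _ => by positivity), ← ENNReal.ofReal_add (by positivity)
          (Finset.sum_nonneg fun j _ => by positivity)]
        refine ENNReal.ofReal_le_ofReal ?_
        rw [← Finset.mul_sum, Finset.sum_add_distrib, Finset.sum_const, Finset.card_range, nsmul_eq_mul]
        have h8 : ∑ j ∈ Finset.range J, ((2 : ℝ) ^ j) ^ 8 ≤ (2 * C₂) ^ 8 * X := by
          have h9 : ∀ n : ℕ, ∑ j ∈ Finset.range n, ((2 : ℝ) ^ j) ^ 8 ≤ ((2 : ℝ) ^ n) ^ 8 := by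
            intro n
            induction n with
            | zero => simp
            | succ n ih =>
              rw [Finset.sum_range_succ]
              have e3 : ((2 : ℝ) ^ (n + 1)) ^ 8 = 256 * ((2 : ℝ) ^ n) ^ 8 := by
                have e4 : (2 : ℝ) ^ (n + 1) = 2 * 2 ^ n := by ring
                rw [e4, mul_pow]
                norm_num
              have : 0 < ((2 : ℝ) ^ n) ^ 8 := by positivity
              rw [e3]
              linarith
          refine (h9 J).trans ?_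
          calc ((2 : ℝ) ^ J) ^ 8 ≤ (2 * M) ^ 8 := pow_le_pow_left₀ (by positivity) hJ2 8
            _ = 2 ^ 8 * M ^ 8 := by ring
            _ ≤ 2 ^ 8 * (C₂ ^ 8 * X) := mul_le_mul_of_nonneg_left hMX (by positivity)
            _ = (2 * C₂) ^ 8 * X := by ring
        obtain ⟨E, hE⟩ : ∃ E : ℝ, E = X ^ (ε / 2) := ⟨_, rfl⟩
        have hE1 : 1 ≤ E := by rw [hE]; exact Real.one_le_rpow hX1 (by positivity)
        have hE0 : 0 < E := by linarith
        have hη3 : X ^ (22 * η) ≤ E := by rw [hE]; exact Real.rpow_le_rpow_of_exponent_le hX1 hη1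
        have hEE : X ^ (6 + ε) = X ^ 6 * (E * E) := by
          rw [hE, ← Real.rpow_add hX0, ← Real.rpow_natCast X 6, ← Real.rpow_add hX0]
          congr 1
          push_cast
          ring
        rw [← hE] at hJn
        rw [hEE]
        obtain ⟨P, hP⟩ : ∃ P : ℝ, P = 2 / ε * (2 * C₂) ^ (ε / 2) * 2 := ⟨_, rfl⟩
        have hP0 : 0 ≤ P := by rw [hP]; positivity
        rw [← hP] at hJn ⊢
        obtain ⟨Q, hQ⟩ : ∃ Q : ℝ, Q = (2 * C₂) ^ 8 := ⟨_, rfl⟩
        have hQ0 : 0 ≤ Q := by rw [hQ]; positivity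
        rw [← hQ] at h8 ⊢
        have hX6 : 0 < X ^ 6 := by positivity
        have hEEone : 1 ≤ E * E := one_le_mul_of_one_le_of_one_le hE1 hE1
        calc X ^ 6 + 2 ^ 10 * X ^ 5 * (C₀ * X ^ (22 * η)) * (J * X + ∑ j ∈ Finset.range J, ((2 : ℝ) ^ j) ^ 8)
            ≤ X ^ 6 + 2 ^ 10 * X ^ 5 * (C₀ * E) * (P * E * X + Q * X) := by
              have h9 : (J : ℝ) * X ≤ P * E * X := mul_le_mul_of_nonneg_right hJn hX0.le
              gcongr
          _ ≤ X ^ 6 * (E * E) + 2 ^ 10 * X ^ 5 * (C₀ * E) * (P * E * X + Q * E * X) := by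
              have h9 : X ^ 6 ≤ X ^ 6 * (E * E) := le_mul_of_one_le_right hX6.le hEEone
              have h10 : Q ≤ Q * E := le_mul_of_one_le_right hQ0 hE1
              gcongr
          _ = _ := by ring

end Pool.Agent.Helper53.TM
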