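import Mathlib
import Pool.Agent.Helper53.TM.T7

/-!
# TM-T8: the tenth moment of the error, for every centre
-/

open MeasureTheory Set Filter
open scoped Real ComplexConjugate Topology

set_option autoImplicit false

namespace Pool.Agent.Helper53.TM

open Pool.Agent.Helper92.GC (dcnt dcnt_bdd)

/-- **the tenth moment for every centre**, from a pointwise bound with an exponent `κ < 5/8` -/
theorem tenth_moment {κ : ℝ} (hκ0 : 1 / 2 ≤ κ) (hκ : κ < 5 / 8)
    (hsup : ∃ C : ℝ, ∀ R : ℝ, 1 ≤ R → ∀ c : ℝ × ℝ, |dcnt c R - π * R ^ 2| ≤ C * R ^ κ)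
    {ε : ℝ} (hε : 0 < ε) : ∃ C : ℝ, ∀ c : ℝ × ℝ, ∀ X : ℝ, 1 ≤ X →
    ∫⁻ R in Icc 1 X, ENNReal.ofReal (er c R ^ 10) ≤ ENNReal.ofReal (C * X ^ (6 + ε)) := by
  obtain ⟨D, X₀, hD, hX₀, hdy⟩ := dyadic_moment hκ0 hκ hsup hε
  obtain ⟨B, hB⟩ := dcnt_bdd (2 * X₀)
  obtain ⟨B₂, hB₂⟩ : ∃ B₂ : ℝ, B₂ = B ^ 10 * (2 * X₀) := ⟨_, rfl⟩
  have hB0 : 0 ≤ B := (abs_nonneg _).trans (hB 1 le_rfl (by linarith) 0)
  have hB₂0 : 0 ≤ B₂ := by rw [hB₂]; positivity
  have key : ∀ n : ℕ, ∀ c : ℝ × ℝ, ∀ X : ℝ, 1 ≤ X → X ≤ 2 ^ n * (2 * X₀) →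
      ∫⁻ R in Icc 1 X, ENNReal.ofReal (er c R ^ 10) ≤ ENNReal.ofReal (B₂ + D * X ^ (6 + ε)) := by
    intro n
    induction n with
    | zero =>
      intro c X hX hX2
      rw [pow_zero, one_mul] at hX2
      have h1 : ∀ R ∈ Icc 1 X, ENNReal.ofReal (er c R ^ 10) ≤ ENNReal.ofReal (B ^ 10) := by
        intro R hR
        refine ENNReal.ofReal_le_ofReal (pow_le_pow_left₀ (er_nonneg c R) ?_ 10)
        exact hB R hR.1 (hR.2.trans hX2) c
      calc ∫⁻ R in Icc 1 X, ENNReal.ofReal (er c R ^ 10) ≤ ∫⁻ _R in Icc 1 X, ENNReal.ofReal (B ^ 10) :=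
            setLIntegral_mono' measurableSet_Icc h1
        _ = ENNReal.ofReal (B ^ 10) * ENNReal.ofReal (X - 1) := by
            rw [setLIntegral_const, Real.volume_Icc]
        _ = ENNReal.ofReal (B ^ 10 * (X - 1)) := by rw [ENNReal.ofReal_mul (by positivity)]
        _ ≤ ENNReal.ofReal (B₂ + D * X ^ (6 + ε)) := by
            refine ENNReal.ofReal_le_ofReal ?_
            have h2 : B ^ 10 * (X - 1) ≤ B₂ := by
              rw [hB₂]
              exact mul_le_mul_of_nonneg_left (by linarith) (by positivity)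
            have h3 : 0 ≤ D * X ^ (6 + ε) := by positivity
            linarith
    | succ n ih =>
      intro c X hX hX2
      rcases le_or_gt X (2 * X₀) with h | h
      · refine ih c X hX (h.trans ?_)
        exact le_mul_of_one_le_left (by linarith) (one_le_pow₀ (by norm_num))
      · obtain ⟨Y, hY⟩ : ∃ Y : ℝ, Y = X / 2 := ⟨_, rfl⟩
        have hXY : X = 2 * Y := by rw [hY]; ring
        have hY1 : X₀ ≤ Y := by linarith
        have hYone : 1 ≤ Y := hX₀.trans hY1
        have h1 := ih c Y hYone (by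
          rw [pow_succ] at hX2
          linarith)
        have h2 := hdy c Y hY1
        have hsub : Icc 1 X ⊆ Icc 1 Y ∪ Icc Y (2 * Y) := by
          intro R hR
          rcases le_total R Y with h3 | h3
          · exact Or.inl ⟨hR.1, h3⟩
          · exact Or.inr ⟨h3, by rw [← hXY]; exact hR.2⟩
        calc ∫⁻ R in Icc 1 X, ENNReal.ofReal (er c R ^ 10)
            ≤ ∫⁻ R in Icc 1 Y ∪ Icc Y (2 * Y), ENNReal.ofReal (er c R ^ 10) := lintegral_mono_set hsub
          _ ≤ (∫⁻ R in Icc 1 Y, ENNReal.ofReal (er c R ^ 10)) + ∫⁻ R in Icc Y (2 * Y), ENNReal.ofReal (er c R ^ 10) :=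
              lintegral_union_le _ _ _
          _ ≤ ENNReal.ofReal (B₂ + D * Y ^ (6 + ε)) + ENNReal.ofReal (D * Y ^ (6 + ε)) := add_le_add h1 h2
          _ ≤ ENNReal.ofReal (B₂ + D * X ^ (6 + ε)) := by
              rw [← ENNReal.ofReal_add (by positivity) (by positivity)]
              refine ENNReal.ofReal_le_ofReal ?_
              have h3 : 2 * Y ^ (6 + ε) ≤ X ^ (6 + ε) := by
                rw [hXY, Real.mul_rpow (by norm_num) (by linarith)]
                refine mul_le_mul_of_nonneg_right ?_ (by positivity)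
                calc (2 : ℝ) = (2 : ℝ) ^ (1 : ℝ) := (Real.rpow_one 2).symm
                  _ ≤ (2 : ℝ) ^ (6 + ε) := Real.rpow_le_rpow_of_exponent_le (by norm_num) (by linarith)
              have h4 := mul_le_mul_of_nonneg_left h3 hD.le
              linarith
  refine ⟨B₂ + D, fun c X hX => ?_⟩
  obtain ⟨n, hn⟩ := pow_unbounded_of_one_lt X (one_lt_two : (1 : ℝ) < 2)
  have h1 := key n c X hX (by
    have h2 : (2 : ℝ) ^ n ≤ 2 ^ n * (2 * X₀) := le_mul_of_one_le_right (by positivity) (by linarith)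
    linarith)
  refine h1.trans (ENNReal.ofReal_le_ofReal ?_)
  have h2 : 1 ≤ X ^ (6 + ε) := Real.one_le_rpow hX (by linarith)
  have h3 : B₂ ≤ B₂ * X ^ (6 + ε) := le_mul_of_one_le_right hB₂0 h2
  linarith

end Pool.Agent.Helper53.TM
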